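import Mathlib

/-!
Shared definitions for MP_ff4374_an (S04506): a C^0-integrable C^2 Tonelli system on the 2-torus with a
Denjoy leaf (construction of helper981).  Coordinates: `t = y 0`, `x = y 1 - al * y 0`; the lattice is
`Γ = {(k, l - k*al)}`.  `z = (t,θ,c)` (action-angle side), `(t,x,p)` physical side, `a` = amplitude.
-/

set_option autoImplicit false
open MeasureTheory Topology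

noncomputable section

namespace H930.FF

/-- freeze the amplitude -/
def sl (G : ℝ × ℝ × ℝ × ℝ → ℝ) (a : ℝ) : ℝ × ℝ × ℝ → ℝ := fun z => G (z.1, z.2.1, z.2.2, a)

/-- Canonical triple: `P dX - (P²/2 + G(t,X,P)) dt = c dθ - (c²/2) dt + dF`. -/
structure Canon (G X P F : ℝ × ℝ × ℝ → ℝ) : Prop where
  X2 : ContDiff ℝ 2 X
  P2 : ContDiff ℝ 2 P
  F2 : ContDiff ℝ 2 F
  rel : ∀ z v : ℝ × ℝ × ℝ,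
    P z * fderiv ℝ X z v - (P z ^ 2 / 2 + G (z.1, X z, P z)) * v.1
      = z.2.2 * v.2.1 - z.2.2 ^ 2 / 2 * v.1 + fderiv ℝ F z v

/-- Γ-equivariance of a triple. -/
structure Equi (al : ℝ) (X P F : ℝ × ℝ × ℝ → ℝ) : Prop where
  X1 : ∀ t θ c : ℝ, X (t, θ + 1, c) = X (t, θ, c) + 1
  Xt : ∀ t θ c : ℝ, X (t + 1, θ - al, c) = X (t, θ, c) - al
  P1 : ∀ t θ c : ℝ, P (t, θ + 1, c) = P (t, θ, c)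
  Pt : ∀ t θ c : ℝ, P (t + 1, θ - al, c) = P (t, θ, c)
  F1 : ∀ t θ c : ℝ, F (t, θ + 1, c) = F (t, θ, c)
  Ft : ∀ t θ c : ℝ, F (t + 1, θ - al, c) = F (t, θ, c)

/-- Γ-periodicity of `G(t,x,p,a)`. -/
structure GPer (al : ℝ) (G : ℝ × ℝ × ℝ × ℝ → ℝ) : Prop where
  G1 : ∀ t x p a : ℝ, G (t, x + 1, p, a) = G (t, x, p, a)
  Gt : ∀ t x p a : ℝ, G (t + 1, x - al, p, a) = G (t, x, p, a)

/-- Basic properties of a (small) perturbation family `G(t,x,p,a)`. -/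
structure GBase (al ep : ℝ) (G : ℝ × ℝ × ℝ × ℝ → ℝ) : Prop where
  C2 : ContDiff ℝ 2 G
  per : GPer al G
  supp : ∀ t x p a : ℝ, ep ≤ |p| → G (t, x, p, a) = 0
  zero : ∀ t x a : ℝ, G (t, x, 0, a) = 0
  a0 : ∀ t x p a : ℝ, a ≤ 0 → G (t, x, p, a) = 0
  s0 : ∀ z, |G z| ≤ ep
  s1 : ∀ z, ‖fderiv ℝ G z‖ ≤ ep
  s2 : ∀ z, ‖fderiv ℝ (fderiv ℝ G) z‖ ≤ ep

/-- A wandering strip of the leaf `p = 0` at amplitude `a = 1`. -/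
structure Strip (al : ℝ) (G : ℝ × ℝ × ℝ × ℝ → ℝ) (T l ρ : ℝ) (X : ℝ × ℝ → ℝ) : Prop where
  C2 : ContDiff ℝ 2 X
  X1 : ∀ t θ : ℝ, X (t, θ + 1) = X (t, θ) + 1
  Xt : ∀ t θ : ℝ, X (t + 1, θ - al) = X (t, θ) - al
  mono : ∀ y, 0 < fderiv ℝ X y (0, 1)
  disj : ∀ k j : ℤ, ∀ t θ : ℝ, |t| < T → |θ| < l → |t + k| < T → |θ + (j - k * al)| < l →
    k = 0 ∧ j = 0
  flow : ∀ t θ : ℝ, |t| < T → |θ| < l →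
    fderiv ℝ X (t, θ) (1, 0) = fderiv ℝ G (t, X (t, θ), 0, 1) (0, 0, 1, 0)
  core : ∀ t θ : ℝ, |t| ≤ 1 / 2 → |X (t, θ)| ≤ ρ → |θ| ≤ l / 2

/-- The whole input of the ENERGY module. -/
structure KFam (al ep : ℝ) (G : ℝ × ℝ × ℝ × ℝ → ℝ) (Gs : ℕ → ℝ × ℝ × ℝ × ℝ → ℝ) : Prop where
  base : GBase al ep G
  bases : ∀ M, GBase al ep (Gs M)
  unif : ∀ η : ℝ, 0 < η → ∃ M, ∀ z, |Gs M z - G z| ≤ η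
  triple : ∀ (M : ℕ) (a : ℝ), ∃ X P F : ℝ × ℝ × ℝ → ℝ,
    Canon (sl (Gs M) a) X P F ∧ Equi al X P F ∧ (∀ z, 0 < fderiv ℝ X z (0, 1, 0)) ∧
    ∀ z : ℝ × ℝ × ℝ, P z = z.2.2 ∨ (|z.2.2| ≤ ep ∧ |P z| ≤ ep)
  gap : ∃ ρ : ℝ, 0 < ρ ∧ ∀ n : ℕ, ∃ T : ℝ, (n : ℝ) ≤ T ∧ ∃ l : ℝ, 0 < l ∧
    ∃ X : ℝ × ℝ → ℝ, Strip al G T l ρ X

/-- Γ-orbit of the closed box `[-2N,2N] × [-r,r]`. -/
def Tube (al N r : ℝ) : Set (ℝ × ℝ) :=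
  {y | ∃ k j : ℤ, |y.1 - k| ≤ 2 * N ∧ |y.2 - (j - k * al)| ≤ r}

/-- Γ-orbit of the active part `⋃_{i ∈ gd} [i,i+1] × [-r,r]`. -/
def ActTube (al r : ℝ) (gd : Set ℤ) : Set (ℝ × ℝ) :=
  {y | ∃ k j i : ℤ, i ∈ gd ∧ (i : ℝ) ≤ y.1 - k ∧ y.1 - k ≤ i + 1 ∧ |y.2 - (j - k * al)| ≤ r}

/-- The tube of size `(N,r)` is embedded in the torus. -/
def Emb (al N r : ℝ) : Prop :=
  ∀ k j : ℤ, |(k : ℝ)| ≤ 4 * N → |(j : ℝ) - k * al| ≤ 2 * r → k = 0 ∧ j = 0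

/-- Admissible profile functions `b`, `k` of a stage of time length `N`, active on the unit intervals
`[i,i+1]`, `i ∈ gd`.  Stretching factor `2000`. -/
structure Prof (Cb N : ℝ) (gd : Set ℤ) (b k : ℝ → ℝ) : Prop where
  bC : ContDiff ℝ 4 b
  kC : ContDiff ℝ 4 k
  bout : ∀ t, 2 * N ≤ |t| → b t = 0
  kout : ∀ t, 2 * N ≤ |t| → k t = 0
  bin : ∀ t, |t| ≤ N / 2 → b t = 1 / 2000 ^ 2 - 1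
  kin : ∀ t, |t| ≤ N / 2 → k t = 0
  bge : ∀ t, 1 / 2000 ^ 2 - 1 ≤ b t
  ble : ∀ t, b t ≤ 2
  kle : ∀ t, |k t| ≤ 3 * N
  kd : ∀ t, deriv k t = -t * deriv b t
  bd1 : ∀ t, |deriv b t| ≤ Cb / N
  bd2 : ∀ t, |deriv (deriv b) t| ≤ Cb / N
  bd3 : ∀ t, |deriv (deriv (deriv b)) t| ≤ Cb / N
  act : ∀ t, (∀ i ∈ gd, ¬ ((i : ℝ) ≤ t ∧ t ≤ i + 1)) → deriv b t = 0
  gdr : ∀ i ∈ gd, (N / 2 ≤ (i : ℝ) ∧ (i : ℝ) + 1 ≤ 2 * N) ∨ (-(2 * N) ≤ (i : ℝ) ∧ (i : ℝ) + 1 ≤ -(N / 2))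

/-- One stage of the construction (after Γ-periodisation). -/
structure Stage (al N lam r sg ep : ℝ) (gd : Set ℤ)
    (G : ℝ × ℝ × ℝ × ℝ → ℝ) (X P F : ℝ → ℝ × ℝ × ℝ → ℝ) : Prop where
  C2 : ContDiff ℝ 2 G
  per : GPer al G
  supp : ∀ t x p a : ℝ, sg ≤ |p| → G (t, x, p, a) = 0
  zero : ∀ t x a : ℝ, G (t, x, 0, a) = 0
  a0 : ∀ t x p a : ℝ, a ≤ 0 → G (t, x, p, a) = 0
  s0 : ∀ z, |G z| ≤ ep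
  s1 : ∀ z, ‖fderiv ℝ G z‖ ≤ ep
  s2 : ∀ z, ‖fderiv ℝ (fderiv ℝ G) z‖ ≤ ep
  Gx : ∀ z : ℝ × ℝ × ℝ × ℝ, (z.1, z.2.1) ∉ ActTube al r gd → G =ᶠ[𝓝 z] 0
  canon : ∀ a, Canon (sl G a) (X a) (P a) (F a)
  equi : ∀ a, Equi al (X a) (P a) (F a)
  box : ∀ a z, (X a z = z.2.1 ∧ P a z = z.2.2 ∧ F a z = 0) ∨
    ((z.1, z.2.1) ∈ Tube al N r ∧ (z.1, X a z) ∈ Tube al N r)
  cone : ∀ a z σ, |σ| ≤ 1 / (1000 * N) → 0 < fderiv ℝ (X a) z (0, 1, σ) ∧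
    |fderiv ℝ (P a) z (0, 1, σ)| ≤ 1 / N * fderiv ℝ (X a) z (0, 1, σ)
  pz : ∀ a t θ, P a (t, θ, 0) = 0
  pc : ∀ a z, P a z = z.2.2 ∨ (|z.2.2| ≤ sg ∧ |P a z| ≤ sg)
  core : ∀ t θ, |t| ≤ N / 2 → |θ| ≤ lam / 2000 → X 1 (t, θ, 0) = 2000 * θ

/-- Time scales. -/
def NN (n0 m : ℕ) : ℝ := 2 * n0 * 1000 ^ m

/-- The frozen statement S04505. -/
def Frozen : Prop :=
  ∀ (L : (Fin 2 → ℝ) × (Fin 2 → ℝ) → ℝ),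
    ContDiff ℝ 2 L →
    (∀ (x v : Fin 2 → ℝ) (k : Fin 2 → ℤ), L (x + (fun i => (k i : ℝ)), v) = L (x, v)) →
    (∀ x v w : Fin 2 → ℝ, w ≠ 0 →
      0 < fderiv ℝ (fun u => fderiv ℝ (fun u' => L (x, u')) u) v w w) →
    (∀ A : ℝ, ∃ B : ℝ, ∀ x v : Fin 2 → ℝ, A * ‖v‖ - B ≤ L (x, v)) →
    ∀ (Adm : Measure ((Fin 2 → ℝ) × (Fin 2 → ℝ)) → Prop),
    (∀ μ, Adm μ ↔ (IsProbabilityMeasure μ ∧ Integrable (fun p => ‖p.2‖) μ ∧ Integrable L μ ∧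
        ∀ φ : (Fin 2 → ℝ) → ℝ, ContDiff ℝ 1 φ →
          (∀ (x : Fin 2 → ℝ) (k : Fin 2 → ℤ), φ (x + (fun i => (k i : ℝ))) = φ x) →
          ∫ p, fderiv ℝ φ p.1 p.2 ∂μ = 0)) →
    ContDiff ℝ 1 (fun h : Fin 2 → ℝ =>
      sInf {r : ℝ | ∃ μ, Adm μ ∧ ∫ p, p.2 ∂μ = h ∧ ∫ p, L p ∂μ = r}) →
    ∀ c x : Fin 2 → ℝ, ∃ μ, Adm μ ∧
      (∀ ν, Adm ν → ∫ p, (L p - ∑ i, c i * p.2 i) ∂μ ≤ ∫ p, (L p - ∑ i, c i * p.2 i) ∂ν) ∧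
      ∃ (k : Fin 2 → ℤ) (v : Fin 2 → ℝ), ∀ ε > 0,
        0 < μ (Metric.ball (x + (fun i => (k i : ℝ)), v) ε)

/-! Target theorems of the modules (each module proves the corresponding `Prop`). -/

/-- ENERGY module. -/
def EnergyThm : Prop :=
  ∃ ep0 : ℝ, 0 < ep0 ∧ ∀ (al ep : ℝ) (G : ℝ × ℝ × ℝ × ℝ → ℝ) (Gs : ℕ → ℝ × ℝ × ℝ × ℝ → ℝ),
    0 < ep → ep ≤ ep0 → KFam al ep G Gs → ¬ Frozen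

/-- BLOCK module. -/
def BlockThm : Prop :=
  ∀ Cb : ℝ, ∃ (d0 K : ℝ) (Cd : ℝ → ℝ), 0 < d0 ∧ 0 < K ∧
    ∀ d : ℝ, 0 < d → d ≤ d0 → ∀ (al N lam : ℝ) (gd : Set ℤ) (b k : ℝ → ℝ),
      1 ≤ N → 0 < lam → lam ≤ 1 → Prof Cb N gd b k →
      Emb al N (10 * Real.exp (1 / d) * lam) →
      ∃ (G : ℝ × ℝ × ℝ × ℝ → ℝ) (X P F : ℝ → ℝ × ℝ × ℝ → ℝ),
        Stage al N lam (10 * Real.exp (1 / d) * lam) (3 * Real.exp (1 / d) * lam / N)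
          (K * d + Cd d / N) gd G X P F

/-- SCHEDULE module. -/
def ScheduleThm : Prop :=
  ∃ (al Cb c1 : ℝ) (nmin : ℕ), 0 < c1 ∧ 0 < nmin ∧ ∀ n0 : ℕ, nmin ≤ n0 → ∀ r : ℕ → ℝ,
    (∀ m, 0 < r m) → (∀ m, ∑ j ∈ Finset.range (m + 1), NN n0 j * r j ≤ c1) →
    ∃ (gd : ℕ → Set ℤ) (b k : ℕ → ℝ → ℝ), ∀ m,
      Prof Cb (NN n0 m) (gd m) (b m) (k m) ∧ Emb al (NN n0 m) (r m) ∧
      ∀ i ∈ gd m, ∀ j, j < m → ∀ k' j' : ℤ, |(i : ℝ) - k'| ≤ 2 * NN n0 j + 1 →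
        r j + r m < |(j' : ℝ) - k' * al|

/-- ASSEMBLY module. -/
def AssemblyThm : Prop :=
  BlockThm → ScheduleThm → ∃ al : ℝ, ∀ ep : ℝ, 0 < ep →
    ∃ (G : ℝ × ℝ × ℝ × ℝ → ℝ) (Gs : ℕ → ℝ × ℝ × ℝ × ℝ → ℝ), KFam al ep G Gs

theorem all_modules (hE : EnergyThm) (hB : BlockThm) (hS : ScheduleThm) (hA : AssemblyThm) :
    ¬ Frozen := by
  obtain ⟨ep0, h0, hE⟩ := hE
  obtain ⟨al, hal⟩ := hA hB hS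
  obtain ⟨G, Gs, hK⟩ := hal ep0 h0
  exact hE al ep0 G Gs h0 le_rfl hK

end H930.FF
end
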