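import Pool.Agent.Helper930.FF.PerDefs

set_option autoImplicit false

open MeasureTheory Topology

noncomputable section

namespace H930.FF.XSEL



theorem sel_uniq {al N r : ℝ} (hE : Emb al N r) {g g' : ℤ × ℤ} {y : ℝ × ℝ}
    (h : inB N r (shf al g y)) (h' : inB N r (shf al g' y)) : g = g' := by
  obtain ⟨h1, h2⟩ := h
  obtain ⟨h1', h2'⟩ := h'
  simp only [shf] at h1 h2 h1' h2'
  rw [abs_le] at h1 h2 h1' h2'
  obtain ⟨e1, e2⟩ := hE (g.1 - g'.1) (g.2 - g'.2) (by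
    push_cast
    rw [abs_le]
    constructor <;> linarith [h1.1, h1.2, h1'.1, h1'.2]) (by
    push_cast
    rw [abs_le]
    constructor <;> nlinarith [h2.1, h2.2, h2'.1, h2'.2])
  exact Prod.ext (by omega) (by omega)

theorem shf_add (al : ℝ) (g0 g : ℤ × ℤ) (y : ℝ × ℝ) :
    shf al (g0.1 + g.1, g0.2 + g.2) (y.1 + g.1, y.2 + (g.2 - g.1 * al)) = shf al g0 y := by
  unfold shf
  refine Prod.ext ?_ ?_
  · push_cast
    ring
  · push_cast
    ring

theorem sel_eq {al N r : ℝ} (hE : Emb al N r) {g : ℤ × ℤ} {y : ℝ × ℝ} (h : inB N r (shf al g y)) :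
    sel al N r y = g := by
  have hex : ∃ g : ℤ × ℤ, inB N r (shf al g y) := ⟨g, h⟩
  unfold sel
  rw [dif_pos hex]
  exact sel_uniq hE hex.choose_spec h

theorem sel_out {al N r : ℝ} {y : ℝ × ℝ} (h : ∀ g : ℤ × ℤ, ¬ inB N r (shf al g y)) :
    sel al N r y = (0, 0) := by
  unfold sel
  rw [dif_neg]
  rintro ⟨g, hg⟩
  exact h g hg

theorem sel_shift {al N r : ℝ} (hE : Emb al N r) (y : ℝ × ℝ) (g : ℤ × ℤ) :
    shf al (sel al N r (y.1 + g.1, y.2 + (g.2 - g.1 * al))) (y.1 + g.1, y.2 + (g.2 - g.1 * al)) =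
      shf al (sel al N r y) y ∨
    ((∀ g' : ℤ × ℤ, ¬ inB N r (shf al g' y)) ∧
      (∀ g' : ℤ × ℤ, ¬ inB N r (shf al g' (y.1 + g.1, y.2 + (g.2 - g.1 * al))))) := by
  by_cases hex : ∃ g0 : ℤ × ℤ, inB N r (shf al g0 y)
  · left
    obtain ⟨g0, h0⟩ := hex
    have h1 : inB N r (shf al (g0.1 + g.1, g0.2 + g.2)
        (y.1 + g.1, y.2 + (g.2 - g.1 * al))) := by
      rw [shf_add]
      exact h0
    rw [sel_eq hE h0, sel_eq hE h1, shf_add]
  · right
    push Not at hex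
    refine ⟨hex, fun g' hg' => ?_⟩
    apply hex (g'.1 - g.1, g'.2 - g.2)
    rw [← shf_add al (g'.1 - g.1, g'.2 - g.2) g y]
    have e : ((g'.1 - g.1, g'.2 - g.2) : ℤ × ℤ).1 + g.1 = g'.1 := by simp
    have e' : ((g'.1 - g.1, g'.2 - g.2) : ℤ × ℤ).2 + g.2 = g'.2 := by simp
    rw [e, e']
    exact hg'

end H930.FF.XSEL

namespace H930.FF

export XSEL (sel_eq sel_out sel_shift)

end H930.FF
end
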