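import Pool.Agent.Helper930.FF.PerDefs
import Pool.Agent.Helper930.FF.A_SEL

set_option autoImplicit false

open MeasureTheory Topology

noncomputable section

namespace H930.FF.XSELN



theorem sn_inB_mono {N r r1 : ℝ} (hr : r1 < r) {y : ℝ × ℝ} (h : inB N r1 y) : inB N r y :=
  ⟨h.1, h.2.trans hr.le⟩

theorem sn_closed (al N r1 : ℝ) (g : ℤ × ℤ) : IsClosed {y : ℝ × ℝ | inB N r1 (shf al g y)} := by
  have h1 : IsClosed {y : ℝ × ℝ | |y.1 - (g.1 : ℝ)| ≤ 2 * N} :=
    isClosed_le ((continuous_fst.sub continuous_const).abs) continuous_const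
  have h2 : IsClosed {y : ℝ × ℝ | |y.2 - ((g.2 : ℝ) - g.1 * al)| ≤ r1} :=
    isClosed_le ((continuous_snd.sub continuous_const).abs) continuous_const
  exact h1.inter h2

theorem sn_finite (al A B : ℝ) (y : ℝ × ℝ) :
    {g : ℤ × ℤ | |y.1 - (g.1 : ℝ)| ≤ A ∧ |y.2 - ((g.2 : ℝ) - g.1 * al)| ≤ B}.Finite := by
  have hsub : {g : ℤ × ℤ | |y.1 - (g.1 : ℝ)| ≤ A ∧ |y.2 - ((g.2 : ℝ) - g.1 * al)| ≤ B} ⊆
      (Set.Icc (-⌈|y.1| + A⌉) ⌈|y.1| + A⌉) ×ˢ
        (Set.Icc (-⌈|y.2| + B + (|y.1| + A) * |al|⌉) ⌈|y.2| + B + (|y.1| + A) * |al|⌉) := by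
    rintro ⟨g1, g2⟩ ⟨h1, h2⟩
    simp only at h1 h2
    have h3 : |(g1 : ℝ)| ≤ |y.1| + A := by
      have : (g1 : ℝ) = y.1 - (y.1 - g1) := by ring
      rw [this]
      refine (abs_sub _ _).trans ?_
      linarith
    have h4 : |(g2 : ℝ)| ≤ |y.2| + B + (|y.1| + A) * |al| := by
      have : (g2 : ℝ) = (y.2 - (y.2 - ((g2 : ℝ) - g1 * al))) + g1 * al := by ring
      rw [this]
      refine (abs_add_le _ _).trans ?_
      have h5 := abs_sub y.2 (y.2 - ((g2 : ℝ) - g1 * al))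
      have h6 : |(g1 : ℝ) * al| ≤ (|y.1| + A) * |al| := by
        rw [abs_mul]
        exact mul_le_mul_of_nonneg_right h3 (abs_nonneg _)
      linarith
    have key : ∀ (g : ℤ) (R : ℝ), |(g : ℝ)| ≤ R → g ∈ Set.Icc (-⌈R⌉) ⌈R⌉ := by
      intro g R h
      have h7 := (abs_le.1 (h.trans (Int.le_ceil R)))
      constructor
      · have : ((-⌈R⌉ : ℤ) : ℝ) ≤ g := by push_cast; exact h7.1
        exact_mod_cast this
      · exact_mod_cast h7.2
    exact ⟨key _ _ h3, key _ _ h4⟩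
  exact ((Set.finite_Icc _ _).prod (Set.finite_Icc _ _)).subset hsub

theorem sel_near {al N r r1 : ℝ} (hE : Emb al N r) (hr : r1 < r) (y : ℝ × ℝ) :
    ∀ᶠ y' in 𝓝 y, sel al N r y' = sel al N r y ∨
      (¬ inB N r1 (shf al (sel al N r y') y') ∧ ¬ inB N r1 (shf al (sel al N r y) y')) := by
  set g0 := sel al N r y with hg0
  have hC := sn_finite al (2 * N + 1) (r1 + 1) y
  set C := {g : ℤ × ℤ | |y.1 - (g.1 : ℝ)| ≤ 2 * N + 1 ∧ |y.2 - ((g.2 : ℝ) - g.1 * al)| ≤ r1 + 1}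
    with hCd
  have hev : ∀ᶠ y' in 𝓝 y, ∀ g ∈ C, g ≠ g0 → ¬ inB N r1 (shf al g y') := by
    rw [Filter.eventually_all_finite hC]
    intro g _
    by_cases hg : g = g0
    · exact Filter.Eventually.of_forall fun y' h => absurd hg h
    · have hy : y ∈ {y : ℝ × ℝ | inB N r1 (shf al g y)}ᶜ := by
        intro h
        apply hg
        rw [hg0, sel_eq hE (sn_inB_mono hr h)]
      filter_upwards [(sn_closed al N r1 g).isOpen_compl.mem_nhds hy] with y' hy' _
      exact hy'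
  have hball : ∀ᶠ y' in 𝓝 y, dist y' y < 1 := Metric.ball_mem_nhds y one_pos
  filter_upwards [hev, hball] with y' h1 h2
  by_cases hs : sel al N r y' = g0
  · exact Or.inl hs
  right
  refine ⟨fun h => ?_, fun h => ?_⟩
  · refine h1 (sel al N r y') ?_ hs h
    obtain ⟨h3, h4⟩ := h
    simp only [shf] at h3 h4
    have h5 : |y'.1 - y.1| < 1 := lt_of_le_of_lt (le_max_left _ _) h2
    have h6 : |y'.2 - y.2| < 1 := lt_of_le_of_lt (le_max_right _ _) h2
    rw [hCd]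
    constructor
    · have : y.1 - ((sel al N r y').1 : ℝ) = (y'.1 - ((sel al N r y').1 : ℝ)) - (y'.1 - y.1) := by ring
      rw [this]
      refine (abs_sub _ _).trans ?_
      linarith
    · have : y.2 - (((sel al N r y').2 : ℝ) - (sel al N r y').1 * al) =
          (y'.2 - (((sel al N r y').2 : ℝ) - (sel al N r y').1 * al)) - (y'.2 - y.2) := by ring
      rw [this]
      refine (abs_sub _ _).trans ?_
      linarith
  · exact hs (sel_eq hE (sn_inB_mono hr h))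

end H930.FF.XSELN

namespace H930.FF

export XSELN (sel_near)

end H930.FF
end
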