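import Pool.Agent.Helper930.FF.PerDefs
import Pool.Agent.Helper930.FF.A_SELN

set_option autoImplicit false

open MeasureTheory Topology

noncomputable section

namespace H930.FF.XOUTN



theorem LTr_out {N r1 : ℝ} {X P F : ℝ × ℝ × ℝ → ℝ} (h : LTr N r1 X P F) (z : ℝ × ℝ × ℝ)
    (hz : ¬ inB N r1 (z.1, z.2.1)) : X z = z.2.1 ∧ P z = z.2.2 ∧ F z = 0 := by
  rcases h.box z with h1 | ⟨h1, h2, -⟩
  · exact h1
  · exact absurd ⟨h1, h2⟩ hz

theorem LG_out {N r1 : ℝ} {gd : Set ℤ} {G : ℝ × ℝ × ℝ × ℝ → ℝ} (h : LG N r1 gd G)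
    (z : ℝ × ℝ × ℝ × ℝ) (hz : ¬ inB N r1 (z.1, z.2.1)) : G z = 0 := by
  obtain ⟨t, x, p, a⟩ := z
  apply h.Gx
  by_cases h1 : |t| ≤ 2 * N
  · right
    by_contra h2
    exact hz ⟨h1, not_lt.1 h2⟩
  · left
    intro i hi hti
    apply h1
    have h3 := h.gr i hi
    rw [abs_le]
    constructor <;> linarith [h3.1, h3.2, hti.1, hti.2]

theorem tnd3 (z : ℝ × ℝ × ℝ) :
    Filter.Tendsto (fun w : ℝ × ℝ × ℝ => (w.1, w.2.1)) (𝓝 z) (𝓝 (z.1, z.2.1)) := by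
  have : Continuous (fun w : ℝ × ℝ × ℝ => (w.1, w.2.1)) := by fun_prop
  exact this.tendsto z

theorem tnd4 (z : ℝ × ℝ × ℝ × ℝ) :
    Filter.Tendsto (fun w : ℝ × ℝ × ℝ × ℝ => (w.1, w.2.1)) (𝓝 z) (𝓝 (z.1, z.2.1)) := by
  have : Continuous (fun w : ℝ × ℝ × ℝ × ℝ => (w.1, w.2.1)) := by fun_prop
  exact this.tendsto z

theorem PX_near {al N r r1 : ℝ} (hE : Emb al N r) (hr : r1 < r) {X P F : ℝ × ℝ × ℝ → ℝ}
    (h : LTr N r1 X P F) (z : ℝ × ℝ × ℝ) (g : ℤ × ℤ) (hg : g = sel al N r (z.1, z.2.1)) :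
    (PX al N r X =ᶠ[𝓝 z] fun w => X (sh3 al g w) + (g.2 - g.1 * al)) ∧
    (PP al N r P =ᶠ[𝓝 z] fun w => P (sh3 al g w)) ∧
    (PP al N r F =ᶠ[𝓝 z] fun w => F (sh3 al g w)) := by
  have hev := (tnd3 z).eventually (sel_near hE hr (z.1, z.2.1))
  refine ⟨?_, ?_, ?_⟩
  · filter_upwards [hev] with w hw
    rcases hw with hw | ⟨hw1, hw2⟩
    · unfold PX
      rw [hw, hg]
    · rw [← hg] at hw2
      have e1 := (LTr_out h (sh3 al (sel al N r (w.1, w.2.1)) w) hw1).1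
      have e2 := (LTr_out h (sh3 al g w) hw2).1
      unfold PX
      rw [e1, e2]
      simp only [sh3]
      ring
  · filter_upwards [hev] with w hw
    rcases hw with hw | ⟨hw1, hw2⟩
    · unfold PP
      rw [hw, hg]
    · rw [← hg] at hw2
      have e1 := (LTr_out h (sh3 al (sel al N r (w.1, w.2.1)) w) hw1).2.1
      have e2 := (LTr_out h (sh3 al g w) hw2).2.1
      unfold PP
      rw [e1, e2]
      simp only [sh3]
  · filter_upwards [hev] with w hw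
    rcases hw with hw | ⟨hw1, hw2⟩
    · unfold PP
      rw [hw, hg]
    · rw [← hg] at hw2
      have e1 := (LTr_out h (sh3 al (sel al N r (w.1, w.2.1)) w) hw1).2.2
      have e2 := (LTr_out h (sh3 al g w) hw2).2.2
      unfold PP
      rw [e1, e2]

theorem PG_near {al N r r1 : ℝ} (hE : Emb al N r) (hr : r1 < r) {gd : Set ℤ}
    {G : ℝ × ℝ × ℝ × ℝ → ℝ} (h : LG N r1 gd G) (z : ℝ × ℝ × ℝ × ℝ) (g : ℤ × ℤ)
    (hg : g = sel al N r (z.1, z.2.1)) :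
    PG al N r G =ᶠ[𝓝 z] fun w => G (sh4 al g w) := by
  filter_upwards [(tnd4 z).eventually (sel_near hE hr (z.1, z.2.1))] with w hw
  rcases hw with hw | ⟨hw1, hw2⟩
  · unfold PG
    rw [hw, hg]
  · rw [← hg] at hw2
    have e1 := LG_out h (sh4 al (sel al N r (w.1, w.2.1)) w) hw1
    have e2 := LG_out h (sh4 al g w) hw2
    unfold PG
    rw [e1, e2]

end H930.FF.XOUTN

namespace H930.FF

export XOUTN (LTr_out LG_out PX_near PG_near)

end H930.FF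
end
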