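import Pool.Agent.Helper930.FF.PerDefs
import Pool.Agent.Helper930.FF.A_OUTN

set_option autoImplicit false

open MeasureTheory Topology

noncomputable section

namespace H930.FF.XACT



theorem PG_act {al N r r1 : ℝ} (hE : Emb al N r) (hr : r1 < r) {gd : Set ℤ}
    {G : ℝ × ℝ × ℝ × ℝ → ℝ} (hG : LG N r1 gd G) (z : ℝ × ℝ × ℝ × ℝ)
    (hz : (z.1, z.2.1) ∉ ActTube al r gd) : PG al N r G =ᶠ[𝓝 z] 0 := by
  refine (PG_near hE hr hG z _ rfl).trans ?_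
  set g := sel al N r (z.1, z.2.1) with hg
  have hfin : gd.Finite := by
    refine (Set.finite_Icc (⌈-(2 * N)⌉) (⌊2 * N⌋)).subset ?_
    intro i hi
    obtain ⟨h1, h2⟩ := hG.gr i hi
    exact ⟨Int.ceil_le.mpr h1, Int.le_floor.mpr (by linarith)⟩
  have hcl : IsClosed (⋃ i ∈ gd, Set.Icc (i : ℝ) ((i : ℝ) + 1)) :=
    hfin.isClosed_biUnion fun i _ => isClosed_Icc
  have hcl2 : IsClosed {w : ℝ × ℝ × ℝ × ℝ | (w.1 - (g.1 : ℝ)) ∈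
      (⋃ i ∈ gd, Set.Icc (i : ℝ) ((i : ℝ) + 1)) ∧ |w.2.1 - ((g.2 : ℝ) - g.1 * al)| ≤ r1} := by
    have c1 : Continuous (fun w : ℝ × ℝ × ℝ × ℝ => w.1 - (g.1 : ℝ)) := by fun_prop
    have c2 : Continuous (fun w : ℝ × ℝ × ℝ × ℝ => |w.2.1 - ((g.2 : ℝ) - g.1 * al)|) := by fun_prop
    exact IsClosed.inter (hcl.preimage c1) (isClosed_le c2 continuous_const)
  have hzn : z ∉ {w : ℝ × ℝ × ℝ × ℝ | (w.1 - (g.1 : ℝ)) ∈
      (⋃ i ∈ gd, Set.Icc (i : ℝ) ((i : ℝ) + 1)) ∧ |w.2.1 - ((g.2 : ℝ) - g.1 * al)| ≤ r1} := by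
    rintro ⟨h1, h2⟩
    rw [Set.mem_iUnion₂] at h1
    obtain ⟨i, hi, h3⟩ := h1
    exact hz ⟨g.1, g.2, i, hi, h3.1, h3.2, h2.trans hr.le⟩
  filter_upwards [hcl2.isOpen_compl.mem_nhds hzn] with w hw
  show G (w.1 - g.1, w.2.1 - (g.2 - g.1 * al), w.2.2.1, w.2.2.2) = 0
  apply hG.Gx
  by_cases h : |w.2.1 - ((g.2 : ℝ) - g.1 * al)| ≤ r1
  · left
    intro i hi h4
    exact hw ⟨Set.mem_iUnion₂.mpr ⟨i, hi, h4⟩, h⟩
  · right
    push Not at h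
    exact h

end H930.FF.XACT

namespace H930.FF

export XACT (PG_act)

end H930.FF
end
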