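import Pool.Agent.Helper930.FF.PerDefs
import Pool.Agent.Helper930.FF.A_OUTN

set_option autoImplicit false

open MeasureTheory Topology

noncomputable section

namespace H930.FF.XFD



theorem j18475_sub_aux {E F : Type} [NormedAddCommGroup E] [NormedSpace ℝ E]
    [NormedAddCommGroup F] [NormedSpace ℝ F] (f : E → F) (a z : E) :
    fderiv ℝ (fun w => f (w - a)) z = fderiv ℝ f (z - a) :=
  fderiv_comp_sub a

theorem j18475_sh3 (al : ℝ) (g : ℤ × ℤ) (w : ℝ × ℝ × ℝ) :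
    sh3 al g w = w - (((g.1 : ℝ), ((g.2 : ℝ) - g.1 * al), (0 : ℝ)) : ℝ × ℝ × ℝ) := by
  unfold sh3
  ext <;> simp

theorem j18475_sh4 (al : ℝ) (g : ℤ × ℤ) (w : ℝ × ℝ × ℝ × ℝ) :
    sh4 al g w = w - (((g.1 : ℝ), ((g.2 : ℝ) - g.1 * al), (0 : ℝ), (0 : ℝ)) :
      ℝ × ℝ × ℝ × ℝ) := by
  unfold sh4
  ext <;> simp

theorem j18475_cd3 {f : ℝ × ℝ × ℝ → ℝ} (hf : ContDiff ℝ 2 f) (al : ℝ) (g : ℤ × ℤ) :
    ContDiff ℝ 2 (fun w => f (sh3 al g w)) := by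
  simp only [j18475_sh3]
  exact hf.comp (contDiff_id.sub contDiff_const)

theorem j18475_fd3 (f : ℝ × ℝ × ℝ → ℝ) (al : ℝ) (g : ℤ × ℤ) (z : ℝ × ℝ × ℝ) :
    fderiv ℝ (fun w => f (sh3 al g w)) z = fderiv ℝ f (sh3 al g z) := by
  simp only [j18475_sh3]
  exact j18475_sub_aux _ _ _

theorem PX_fderiv {al N r r1 : ℝ} (hE : Emb al N r) (hr : r1 < r) {X P F : ℝ × ℝ × ℝ → ℝ}
    (h : LTr N r1 X P F) (hX : ContDiff ℝ 2 X) (hP : ContDiff ℝ 2 P) (hF : ContDiff ℝ 2 F)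
    (z : ℝ × ℝ × ℝ) :
    ContDiffAt ℝ 2 (PX al N r X) z ∧ ContDiffAt ℝ 2 (PP al N r P) z ∧ ContDiffAt ℝ 2 (PP al N r F) z ∧
    fderiv ℝ (PX al N r X) z = fderiv ℝ X (sh3 al (sel al N r (z.1, z.2.1)) z) ∧
    fderiv ℝ (PP al N r P) z = fderiv ℝ P (sh3 al (sel al N r (z.1, z.2.1)) z) ∧
    fderiv ℝ (PP al N r F) z = fderiv ℝ F (sh3 al (sel al N r (z.1, z.2.1)) z) := by
  obtain ⟨h1, h2, h3⟩ := PX_near hE hr h z _ rfl
  refine ⟨?_, ?_, ?_, ?_, ?_, ?_⟩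
  · exact (((j18475_cd3 hX al _).add contDiff_const).contDiffAt).congr_of_eventuallyEq h1
  · exact ((j18475_cd3 hP al _).contDiffAt).congr_of_eventuallyEq h2
  · exact ((j18475_cd3 hF al _).contDiffAt).congr_of_eventuallyEq h3
  · rw [h1.fderiv_eq, fderiv_add_const]
    exact j18475_fd3 _ _ _ _
  · rw [h2.fderiv_eq]
    exact j18475_fd3 _ _ _ _
  · rw [h3.fderiv_eq]
    exact j18475_fd3 _ _ _ _

theorem PG_fderiv {al N r r1 : ℝ} (hE : Emb al N r) (hr : r1 < r) {gd : Set ℤ}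
    {G : ℝ × ℝ × ℝ × ℝ → ℝ} (h : LG N r1 gd G) (z : ℝ × ℝ × ℝ × ℝ) :
    ContDiffAt ℝ 2 (PG al N r G) z ∧
    fderiv ℝ (PG al N r G) z = fderiv ℝ G (sh4 al (sel al N r (z.1, z.2.1)) z) ∧
    fderiv ℝ (fderiv ℝ (PG al N r G)) z =
      fderiv ℝ (fderiv ℝ G) (sh4 al (sel al N r (z.1, z.2.1)) z) := by
  have h1 := PG_near hE hr h z _ rfl
  have hc : ContDiff ℝ 2 (fun w => G (sh4 al (sel al N r (z.1, z.2.1)) w)) := by
    simp only [j18475_sh4]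
    exact h.C2.comp (contDiff_id.sub contDiff_const)
  have hd : ∀ w, fderiv ℝ (fun w => G (sh4 al (sel al N r (z.1, z.2.1)) w)) w =
      fderiv ℝ G (sh4 al (sel al N r (z.1, z.2.1)) w) := by
    intro w
    simp only [j18475_sh4]
    exact j18475_sub_aux _ _ _
  refine ⟨hc.contDiffAt.congr_of_eventuallyEq h1, ?_, ?_⟩
  · rw [h1.fderiv_eq]
    exact hd z
  · rw [h1.fderiv.fderiv_eq]
    have he : fderiv ℝ (fun w => G (sh4 al (sel al N r (z.1, z.2.1)) w)) =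
        fun w => fderiv ℝ G (sh4 al (sel al N r (z.1, z.2.1)) w) := funext hd
    rw [he]
    simp only [j18475_sh4]
    exact j18475_sub_aux _ _ _

end H930.FF.XFD

namespace H930.FF

export XFD (PX_fderiv PG_fderiv)

end H930.FF
end
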