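import Pool.Agent.Helper930.FF.PerDefs
import Pool.Agent.Helper930.FF.A_SEL
import Pool.Agent.Helper930.FF.A_OUTN

set_option autoImplicit false

open MeasureTheory Topology

noncomputable section

namespace H930.FF.XIMG



theorem PX_shf_18476 {al N r : ℝ} (X : ℝ × ℝ × ℝ → ℝ) (z : ℝ × ℝ × ℝ) :
    shf al (sel al N r (z.1, z.2.1)) (z.1, PX al N r X z) =
      ((sh3 al (sel al N r (z.1, z.2.1)) z).1, X (sh3 al (sel al N r (z.1, z.2.1)) z)) := by
  unfold shf PX sh3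
  ext
  · rfl
  · show X _ + _ - _ = X _
    ring

theorem PX_sel_18476 {al N r r1 : ℝ} (hE : Emb al N r) (hr : r1 < r) {X P F : ℝ × ℝ × ℝ → ℝ}
    (h : LTr N r1 X P F) (z : ℝ × ℝ × ℝ) :
    sel al N r (z.1, PX al N r X z) = sel al N r (z.1, z.2.1) := by
  rcases h.box (sh3 al (sel al N r (z.1, z.2.1)) z) with ⟨h1, -, -⟩ | ⟨h1, -, h3⟩
  · have : PX al N r X z = z.2.1 := by
      unfold PX
      rw [h1]
      show z.2.1 - _ + _ = z.2.1
      ring
    rw [this]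
  · apply sel_eq hE
    rw [PX_shf_18476]
    exact ⟨h1, h3.trans hr.le⟩

theorem PG_image {al N r r1 : ℝ} (hE : Emb al N r) (hr : r1 < r) {gd : Set ℤ}
    {G : ℝ × ℝ × ℝ × ℝ → ℝ} (hG : LG N r1 gd G) {X P F : ℝ × ℝ × ℝ → ℝ} (h : LTr N r1 X P F)
    (z : ℝ × ℝ × ℝ) (p a : ℝ) :
    PG al N r G (z.1, PX al N r X z, p, a) =
      G ((sh3 al (sel al N r (z.1, z.2.1)) z).1, X (sh3 al (sel al N r (z.1, z.2.1)) z), p, a) := by
  have h1 := PX_sel_18476 hE hr h z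
  have h2 := PX_shf_18476 (al := al) (N := N) (r := r) X z
  show G (sh4 al (sel al N r (z.1, PX al N r X z)) (z.1, PX al N r X z, p, a)) = _
  rw [h1]
  show G ((shf al (sel al N r (z.1, z.2.1)) (z.1, PX al N r X z)).1,
    (shf al (sel al N r (z.1, z.2.1)) (z.1, PX al N r X z)).2, p, a) = _
  rw [h2]

theorem P_box {al N r r1 : ℝ} (hE : Emb al N r) (hr : r1 < r) {X P F : ℝ × ℝ × ℝ → ℝ}
    (h : LTr N r1 X P F) (z : ℝ × ℝ × ℝ) :
    (PX al N r X z = z.2.1 ∧ PP al N r P z = z.2.2 ∧ PP al N r F z = 0) ∨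
      ((z.1, z.2.1) ∈ Tube al N r ∧ (z.1, PX al N r X z) ∈ Tube al N r) := by
  rcases h.box (sh3 al (sel al N r (z.1, z.2.1)) z) with ⟨h1, h2, h3⟩ | ⟨h1, h2, h3⟩
  · left
    refine ⟨?_, h2, h3⟩
    unfold PX
    rw [h1]
    show z.2.1 - _ + _ = z.2.1
    ring
  · right
    have e := PX_shf_18476 (al := al) (N := N) (r := r) X z
    refine ⟨⟨(sel al N r (z.1, z.2.1)).1, (sel al N r (z.1, z.2.1)).2, h1, h2.trans hr.le⟩,
      ⟨(sel al N r (z.1, z.2.1)).1, (sel al N r (z.1, z.2.1)).2, h1, ?_⟩⟩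
    have e2 := congrArg Prod.snd e
    have e3 : PX al N r X z - ((sel al N r (z.1, z.2.1)).2 - (sel al N r (z.1, z.2.1)).1 * al) =
      X (sh3 al (sel al N r (z.1, z.2.1)) z) := e2
    show |PX al N r X z - ((sel al N r (z.1, z.2.1)).2 - (sel al N r (z.1, z.2.1)).1 * al)| ≤ r
    rw [e3]
    exact h3.trans hr.le

end H930.FF.XIMG

namespace H930.FF

export XIMG (PG_image P_box)

end H930.FF
end
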