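import Pool.Agent.Helper930.FF.PerDefs
import Pool.Agent.Helper930.FF.A_FD
import Pool.Agent.Helper930.FF.A_IMG

set_option autoImplicit false

open MeasureTheory Topology

noncomputable section

namespace H930.FF.XPCAN



theorem P_canon {al N r r1 : ℝ} (hE : Emb al N r) (hr : r1 < r) {gd : Set ℤ}
    {G : ℝ × ℝ × ℝ × ℝ → ℝ} (hG : LG N r1 gd G) {X P F : ℝ × ℝ × ℝ → ℝ} (h : LTr N r1 X P F)
    (a : ℝ) (hc : Canon (sl G a) X P F) :
    Canon (sl (PG al N r G) a) (PX al N r X) (PP al N r P) (PP al N r F) := by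
  refine ⟨?_, ?_, ?_, ?_⟩
  · exact contDiff_iff_contDiffAt.2 fun z => (PX_fderiv hE hr h hc.X2 hc.P2 hc.F2 z).1
  · exact contDiff_iff_contDiffAt.2 fun z => (PX_fderiv hE hr h hc.X2 hc.P2 hc.F2 z).2.1
  · exact contDiff_iff_contDiffAt.2 fun z => (PX_fderiv hE hr h hc.X2 hc.P2 hc.F2 z).2.2.1
  · intro z v
    obtain ⟨_, _, _, h1, _, h3⟩ := PX_fderiv hE hr h hc.X2 hc.P2 hc.F2 z
    rw [h1, h3]
    have hg := PG_image hE hr hG h z (PP al N r P z) a
    have hrel := hc.rel (sh3 al (sel al N r (z.1, z.2.1)) z) v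
    have e1 : sl (PG al N r G) a (z.1, PX al N r X z, PP al N r P z)
        = PG al N r G (z.1, PX al N r X z, PP al N r P z, a) := rfl
    rw [e1, hg]
    exact hrel

end H930.FF.XPCAN

namespace H930.FF

export XPCAN (P_canon)

end H930.FF
end
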