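import Pool.Agent.Helper930.FF.PerDefs
import Pool.Agent.Helper930.FF.A_SEL
import Pool.Agent.Helper930.FF.A_OUTN

set_option autoImplicit false

open MeasureTheory Topology

noncomputable section

namespace H930.FF.XPEQ



theorem not_inB478 {N r r1 : ℝ} (hr : r1 < r) {y : ℝ × ℝ} (h : ¬ inB N r y) : ¬ inB N r1 y :=
  fun h1 => h ⟨h1.1, h1.2.trans hr.le⟩

theorem P_gen478 {al N r r1 : ℝ} (hE : Emb al N r) (hr : r1 < r) {X P F : ℝ × ℝ × ℝ → ℝ}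
    (h : LTr N r1 X P F) (g : ℤ × ℤ) (t θ c : ℝ) :
    PX al N r X (t + g.1, θ + (g.2 - g.1 * al), c) = PX al N r X (t, θ, c) + (g.2 - g.1 * al) ∧
    PP al N r P (t + g.1, θ + (g.2 - g.1 * al), c) = PP al N r P (t, θ, c) ∧
    PP al N r F (t + g.1, θ + (g.2 - g.1 * al), c) = PP al N r F (t, θ, c) := by
  have hs := sel_shift hE (t, θ) g
  unfold PX PP
  simp only at hs ⊢
  generalize sel al N r (t + g.1, θ + (g.2 - g.1 * al)) = s' at hs ⊢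
  generalize sel al N r (t, θ) = s at hs ⊢
  rcases hs with h1 | ⟨h1, h2⟩
  · unfold shf at h1
    simp only [Prod.mk.injEq] at h1
    obtain ⟨e1, e2⟩ := h1
    have e3 : sh3 al s' (t + g.1, θ + (g.2 - g.1 * al), c) = sh3 al s (t, θ, c) := by
      unfold sh3
      simp only [Prod.mk.injEq]
      exact ⟨e1, e2, trivial⟩
    rw [e3]
    refine ⟨?_, rfl, rfl⟩
    linarith
  · obtain ⟨a1, a2, a3⟩ := LTr_out h (sh3 al s (t, θ, c)) (not_inB478 hr (h1 s))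
    obtain ⟨b1, b2, b3⟩ := LTr_out h (sh3 al s' (t + g.1, θ + (g.2 - g.1 * al), c))
      (not_inB478 hr (h2 s'))
    rw [a1, a2, a3, b1, b2, b3]
    unfold sh3
    refine ⟨?_, rfl, rfl⟩
    simp only
    ring

theorem G_gen478 {al N r r1 : ℝ} (hE : Emb al N r) (hr : r1 < r) {gd : Set ℤ}
    {G : ℝ × ℝ × ℝ × ℝ → ℝ} (hG : LG N r1 gd G) (g : ℤ × ℤ) (t θ c a : ℝ) :
    PG al N r G (t + g.1, θ + (g.2 - g.1 * al), c, a) = PG al N r G (t, θ, c, a) := by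
  have hs := sel_shift hE (t, θ) g
  unfold PG
  simp only at hs ⊢
  generalize sel al N r (t + g.1, θ + (g.2 - g.1 * al)) = s' at hs ⊢
  generalize sel al N r (t, θ) = s at hs ⊢
  rcases hs with h1 | ⟨h1, h2⟩
  · unfold shf at h1
    simp only [Prod.mk.injEq] at h1
    obtain ⟨e1, e2⟩ := h1
    have e3 : sh4 al s' (t + g.1, θ + (g.2 - g.1 * al), c, a) = sh4 al s (t, θ, c, a) := by
      unfold sh4
      simp only [Prod.mk.injEq]
      exact ⟨e1, e2, trivial⟩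
    rw [e3]
  · rw [LG_out hG (sh4 al s (t, θ, c, a)) (not_inB478 hr (h1 s)),
      LG_out hG (sh4 al s' (t + g.1, θ + (g.2 - g.1 * al), c, a)) (not_inB478 hr (h2 s'))]

theorem P_equi {al N r r1 : ℝ} (hE : Emb al N r) (hr : r1 < r) {X P F : ℝ × ℝ × ℝ → ℝ}
    (h : LTr N r1 X P F) : Equi al (PX al N r X) (PP al N r P) (PP al N r F) := by
  have key1 : ∀ t θ c : ℝ, ((t + ((0, 1) : ℤ × ℤ).1, θ + (((0, 1) : ℤ × ℤ).2 -
      ((0, 1) : ℤ × ℤ).1 * al), c) : ℝ × ℝ × ℝ) = (t, θ + 1, c) := by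
    intro t θ c
    simp
  have key2 : ∀ t θ c : ℝ, ((t + ((1, 0) : ℤ × ℤ).1, θ + (((1, 0) : ℤ × ℤ).2 -
      ((1, 0) : ℤ × ℤ).1 * al), c) : ℝ × ℝ × ℝ) = (t + 1, θ - al, c) := by
    intro t θ c
    simp
    ring
  have h1 := fun t θ c => P_gen478 hE hr h (0, 1) t θ c
  have h2 := fun t θ c => P_gen478 hE hr h (1, 0) t θ c
  simp only [key1] at h1
  simp only [key2] at h2
  refine ⟨fun t θ c => ?_, fun t θ c => ?_, fun t θ c => (h1 t θ c).2.1,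
    fun t θ c => (h2 t θ c).2.1, fun t θ c => (h1 t θ c).2.2, fun t θ c => (h2 t θ c).2.2⟩
  · rw [(h1 t θ c).1]
    simp
  · rw [(h2 t θ c).1]
    simp
    ring

theorem PG_per {al N r r1 : ℝ} (hE : Emb al N r) (hr : r1 < r) {gd : Set ℤ}
    {G : ℝ × ℝ × ℝ × ℝ → ℝ} (hG : LG N r1 gd G) : GPer al (PG al N r G) := by
  have key1 : ∀ t θ c a : ℝ, ((t + ((0, 1) : ℤ × ℤ).1, θ + (((0, 1) : ℤ × ℤ).2 -
      ((0, 1) : ℤ × ℤ).1 * al), c, a) : ℝ × ℝ × ℝ × ℝ) = (t, θ + 1, c, a) := by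
    intro t θ c a
    simp
  have key2 : ∀ t θ c a : ℝ, ((t + ((1, 0) : ℤ × ℤ).1, θ + (((1, 0) : ℤ × ℤ).2 -
      ((1, 0) : ℤ × ℤ).1 * al), c, a) : ℝ × ℝ × ℝ × ℝ) = (t + 1, θ - al, c, a) := by
    intro t θ c a
    simp
    ring
  have h1 := fun t θ c a => G_gen478 hE hr hG (0, 1) t θ c a
  have h2 := fun t θ c a => G_gen478 hE hr hG (1, 0) t θ c a
  simp only [key1] at h1
  simp only [key2] at h2
  exact ⟨h1, h2⟩

end H930.FF.XPEQ

namespace H930.FF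

export XPEQ (P_equi PG_per)

end H930.FF
end
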