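import Pool.Agent.Helper930.FF.A_SEL
import Pool.Agent.Helper930.FF.A_SELN
import Pool.Agent.Helper930.FF.A_OUTN
import Pool.Agent.Helper930.FF.A_FD
import Pool.Agent.Helper930.FF.A_IMG
import Pool.Agent.Helper930.FF.A_PCAN
import Pool.Agent.Helper930.FF.A_PEQ
import Pool.Agent.Helper930.FF.A_ACT

set_option autoImplicit false
open MeasureTheory Topology

noncomputable section

namespace H930.FF

theorem per_stage (al N lam r r1 sg ep : ℝ) (gd : Set ℤ) (hN : 1 ≤ N) (hl : 0 < lam) (hl1 : lam ≤ r1)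
    (hr : r1 < r) (hE : Emb al N r)
    (hgd : ∀ i ∈ gd, -(2 * N) ≤ (i : ℝ) ∧ (i : ℝ) + 1 ≤ 2 * N)
    (G : ℝ × ℝ × ℝ × ℝ → ℝ) (X P F : ℝ → ℝ × ℝ × ℝ → ℝ)
    (C2 : ContDiff ℝ 2 G)
    (supp : ∀ t x p a : ℝ, sg ≤ |p| → G (t, x, p, a) = 0)
    (zero : ∀ t x a : ℝ, G (t, x, 0, a) = 0)
    (a0 : ∀ t x p a : ℝ, a ≤ 0 → G (t, x, p, a) = 0)
    (s0 : ∀ z, |G z| ≤ ep)
    (s1 : ∀ z, ‖fderiv ℝ G z‖ ≤ ep)
    (s2 : ∀ z, ‖fderiv ℝ (fderiv ℝ G) z‖ ≤ ep)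
    (Gx : ∀ t x p a : ℝ, ((∀ i ∈ gd, ¬ ((i : ℝ) ≤ t ∧ t ≤ i + 1)) ∨ r1 < |x|) → G (t, x, p, a) = 0)
    (canon : ∀ a, Canon (sl G a) (X a) (P a) (F a))
    (box : ∀ a z, (X a z = z.2.1 ∧ P a z = z.2.2 ∧ F a z = 0) ∨
      (|z.1| ≤ 2 * N ∧ |z.2.1| ≤ r1 ∧ |X a z| ≤ r1))
    (cone : ∀ a z σ, |σ| ≤ 1 / (1000 * N) → 0 < fderiv ℝ (X a) z (0, 1, σ) ∧
      |fderiv ℝ (P a) z (0, 1, σ)| ≤ 1 / N * fderiv ℝ (X a) z (0, 1, σ))
    (pz : ∀ a t θ, P a (t, θ, 0) = 0)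
    (pc : ∀ a z, P a z = z.2.2 ∨ (|z.2.2| ≤ sg ∧ |P a z| ≤ sg))
    (core : ∀ t θ, |t| ≤ N / 2 → |θ| ≤ lam / 2000 → X 1 (t, θ, 0) = 2000 * θ) :
    Stage al N lam r sg ep gd (PG al N r G) (fun a => PX al N r (X a)) (fun a => PP al N r (P a))
      (fun a => PP al N r (F a)) := by
  have hLG : LG N r1 gd G := ⟨C2, hgd, Gx⟩
  have hLT : ∀ a, LTr N r1 (X a) (P a) (F a) := fun a => ⟨box a⟩
  refine
    { C2 := contDiff_iff_contDiffAt.2 fun z => (PG_fderiv hE hr hLG z).1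
      per := PG_per hE hr hLG
      supp := fun t x p a hp => supp _ _ _ _ hp
      zero := fun t x a => zero _ _ _
      a0 := fun t x p a ha => a0 _ _ _ _ ha
      s0 := fun z => s0 _
      s1 := fun z => by rw [(PG_fderiv hE hr hLG z).2.1]; exact s1 _
      s2 := fun z => by rw [(PG_fderiv hE hr hLG z).2.2]; exact s2 _
      Gx := fun z hz => PG_act hE hr hLG z hz
      canon := fun a => P_canon hE hr hLG (hLT a) a (canon a)
      equi := fun a => P_equi hE hr (hLT a)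
      box := fun a z => P_box hE hr (hLT a) z
      cone := fun a z σ hσ => ?_
      pz := fun a t θ => pz a _ _
      pc := fun a z => pc a _
      core := fun t θ ht hθ => ?_ }
  · have h1 := PX_fderiv hE hr (hLT a) (canon a).X2 (canon a).P2 (canon a).F2 z
    rw [h1.2.2.2.1, h1.2.2.2.2.1]
    exact cone a _ σ hσ
  · have h1 : sel al N r ((t, θ, (0:ℝ)).1, (t, θ, (0:ℝ)).2.1) = (0, 0) := by
      apply sel_eq hE
      refine ⟨?_, ?_⟩
      · simp only [shf, Int.cast_zero, sub_zero]; linarith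
      · simp only [shf, Int.cast_zero, zero_mul, sub_zero]; linarith
    simp only [PX, h1, sh3, Int.cast_zero, zero_mul, sub_zero, add_zero]
    exact core t θ ht hθ

end H930.FF
end
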