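import Pool.Agent.Helper930.FF.AsmDefs

set_option autoImplicit false

open MeasureTheory Topology

noncomputable section

namespace H930.FF.XTUBES

variable {al : ℝ} {N lam r sg ep : ℕ → ℝ} {gd : ℕ → Set ℤ}
  {G : ℕ → ℝ × ℝ × ℝ × ℝ → ℝ} {X P F : ℕ → ℝ → ℝ × ℝ × ℝ → ℝ}



theorem N_ge (h : SeqS al N lam r sg ep gd G X P F) : ∀ m j, j ≤ m → 1 ≤ N j ∧ N j ≤ N m := by
  have h1 : ∀ m, 1 ≤ N m := by
    intro m
    induction m with
    | zero => exact h.N0
    | succ m ih => rw [h.NS m]; linarith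
  intro m j hj
  refine ⟨h1 j, ?_⟩
  induction m, hj using Nat.le_induction with
  | base => exact le_rfl
  | succ m _ ih => rw [h.NS m]; linarith [h1 m]

theorem act_tube (h : SeqS al N lam r sg ep gd G X P F) (m : ℕ) (y : ℝ × ℝ)
    (hy : y ∈ ActTube al (r m) (gd m)) : y ∈ Tube al (N m) (r m) := by
  obtain ⟨k, j, i, hi, h1, h2, h3⟩ := hy
  have hN := (N_ge h m m le_rfl).1
  refine ⟨k, j, ?_, h3⟩
  rw [abs_le]
  rcases h.gdr m i hi with ⟨h4, h5⟩ | ⟨h4, h5⟩
  · constructor <;> linarith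
  · constructor <;> linarith

theorem tube_act (h : SeqS al N lam r sg ep gd G X P F) {j m : ℕ} (hjm : j < m) (y : ℝ × ℝ)
    (hy : y ∈ Tube al (N j) (r j)) : y ∉ ActTube al (r m) (gd m) := by
  rintro ⟨k2, j2, i, hi, h1, h2, h3⟩
  obtain ⟨k1, j1, h4, h5⟩ := hy
  rw [abs_le] at h3 h4 h5
  have h6 := h.pause m i hi j hjm (k1 - k2) (j1 - j2) (by
    push_cast
    rw [abs_le]
    constructor <;> linarith [h4.1, h4.2])
  push_cast at h6
  have h7 : |((j1:ℝ) - j2) - (k1 - k2) * al| ≤ r j + r m := by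
    rw [abs_le]
    constructor <;> linarith [h3.1, h3.2, h5.1, h5.2]
  linarith

theorem core_act (h : SeqS al N lam r sg ep gd G X P F) (m : ℕ) (t x : ℝ) (ht : |t| < N m / 2)
    (hx : |x| ≤ r m) : (t, x) ∉ ActTube al (r m) (gd m) ∧ (t, x) ∈ Tube al (N m) (r m) := by
  have hN := (N_ge h m m le_rfl).1
  rw [abs_lt] at ht
  refine ⟨?_, 0, 0, ?_, ?_⟩
  · rintro ⟨k, j, i, hi, h1, h2, h3⟩
    have hgd := h.gdr m i hi
    simp only at h1 h2 h3
    rw [abs_le] at h3 hx
    have hkj := h.emb m k j (by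
      rw [abs_le]
      rcases hgd with ⟨h4, h5⟩ | ⟨h4, h5⟩
      · constructor <;> linarith [ht.1, ht.2]
      · constructor <;> linarith [ht.1, ht.2]) (by
      rw [abs_le]
      constructor <;> linarith [h3.1, h3.2, hx.1, hx.2])
    obtain ⟨hk, hj⟩ := hkj
    subst hk
    simp only [Int.cast_zero, sub_zero] at h1 h2
    rcases hgd with ⟨h4, h5⟩ | ⟨h4, h5⟩
    · linarith [ht.2]
    · linarith [ht.1]
  · simp only [Int.cast_zero, sub_zero]
    rw [abs_le]; constructor <;> linarith [ht.1, ht.2]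
  · simpa using hx

end H930.FF.XTUBES

namespace H930.FF

export XTUBES (N_ge act_tube tube_act core_act)

end H930.FF
end
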