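import Pool.Agent.Helper930.FF.AsmDefs
import Pool.Agent.Helper930.FF.A_TUBES

set_option autoImplicit false

open MeasureTheory Topology

noncomputable section

namespace H930.FF.XALT

variable {al : ℝ} {N lam r sg ep : ℕ → ℝ} {gd : ℕ → Set ℤ}
  {G : ℕ → ℝ × ℝ × ℝ × ℝ → ℝ} {X P F : ℕ → ℝ → ℝ × ℝ × ℝ → ℝ}



theorem chain_alt (h : SeqS al N lam r sg ep gd G X P F) (a : ℝ) (M : ℕ) (z : ℝ × ℝ × ℝ) :
    (CX (fun m => X m a) (fun m => P m a) M z = z.2.1 ∧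
      CP (fun m => X m a) (fun m => P m a) M z = z.2.2) ∨
    ((∃ j < M, (z.1, z.2.1) ∈ Tube al (N j) (r j)) ∧
      (∃ j < M, (z.1, CX (fun m => X m a) (fun m => P m a) M z) ∈ Tube al (N j) (r j))) := by
  induction M generalizing z with
  | zero => exact Or.inl ⟨rfl, rfl⟩
  | succ M ih =>
    have hCX : CX (fun m => X m a) (fun m => P m a) (M + 1) z
        = CX (fun m => X m a) (fun m => P m a) M (z.1, X M a z, P M a z) := rfl
    have hCP : CP (fun m => X m a) (fun m => P m a) (M + 1) z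
        = CP (fun m => X m a) (fun m => P m a) M (z.1, X M a z, P M a z) := rfl
    rw [hCX, hCP]
    rcases ih (z.1, X M a z, P M a z) with ⟨h1, h2⟩ | ⟨⟨j, hj, hj1⟩, ⟨i, hi, hi1⟩⟩
    · simp only at h1 h2
      rw [h1, h2]
      rcases (h.st M).box a z with ⟨b1, b2, -⟩ | ⟨b1, b2⟩
      · exact Or.inl ⟨b1, b2⟩
      · exact Or.inr ⟨⟨M, Nat.lt_succ_self M, b1⟩, ⟨M, Nat.lt_succ_self M, b2⟩⟩
    · simp only at hj1 hi1
      right
      refine ⟨?_, ⟨i, Nat.lt_succ_of_lt hi, hi1⟩⟩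
      rcases (h.st M).box a z with ⟨b1, b2, -⟩ | ⟨b1, b2⟩
      · rw [b1] at hj1
        exact ⟨j, Nat.lt_succ_of_lt hj, hj1⟩
      · exact ⟨M, Nat.lt_succ_self M, b1⟩

theorem G_inv (h : SeqS al N lam r sg ep gd G X P F) (a : ℝ) {M m : ℕ} (hM : M ≤ m) (z : ℝ × ℝ × ℝ) :
    G m (z.1, CX (fun m => X m a) (fun m => P m a) M z,
      CP (fun m => X m a) (fun m => P m a) M z, a) = G m (z.1, z.2.1, z.2.2, a) := by
  rcases chain_alt h a M z with ⟨h1, h2⟩ | ⟨⟨j, hj, hj1⟩, ⟨i, hi, hi1⟩⟩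
  · rw [h1, h2]
  · have e1 := ((h.st m).Gx (z.1, z.2.1, z.2.2, a)
      (tube_act h (lt_of_lt_of_le hj hM) _ hj1)).eq_of_nhds
    have e2 := ((h.st m).Gx (z.1, CX (fun m => X m a) (fun m => P m a) M z,
      CP (fun m => X m a) (fun m => P m a) M z, a)
      (tube_act h (lt_of_lt_of_le hi hM) _ hi1)).eq_of_nhds
    rw [e1, e2]
    rfl

end H930.FF.XALT

namespace H930.FF

export XALT (chain_alt G_inv)

end H930.FF
end
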