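import Pool.Agent.Helper930.FF.AsmDefs

set_option autoImplicit false

open MeasureTheory Topology

noncomputable section

namespace H930.FF.XDSUM



theorem tu_aux {E F : Type} [NormedAddCommGroup F] (h : ℕ → E → F) (e : ℕ → ℝ) (m0 : E → ℕ)
    (h0 : ∀ z m, m ≠ m0 z → h m z = 0) (he : Filter.Tendsto e Filter.atTop (𝓝 0))
    (hb : ∀ m z, ‖h m z‖ ≤ e m) :
    TendstoUniformly (fun (n : ℕ) z => ∑ m ∈ Finset.range n, h m z) (fun z => h (m0 z) z)
      Filter.atTop := by
  rw [Metric.tendstoUniformly_iff]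
  intro ε hε
  have h1 : ∀ᶠ n in Filter.atTop, e n < ε := he.eventually (gt_mem_nhds hε)
  obtain ⟨N, hN⟩ := Filter.eventually_atTop.1 h1
  filter_upwards [Filter.eventually_ge_atTop N] with n hn z
  by_cases hm : m0 z < n
  · have : ∑ m ∈ Finset.range n, h m z = h (m0 z) z :=
      Finset.sum_eq_single _ (fun m _ hm' => h0 z m hm')
        (fun hh => absurd (Finset.mem_range.2 hm) hh)
    rw [this, dist_self]
    exact hε
  · have : ∑ m ∈ Finset.range n, h m z = 0 :=
      Finset.sum_eq_zero (fun m hm' => h0 z m (by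
        intro hh
        rw [hh, Finset.mem_range] at hm'
        exact hm hm'))
    rw [this, dist_zero_right]
    exact (hb _ _).trans_lt (hN _ (hn.trans (not_lt.1 hm)))

theorem disj_sum {E : Type} [NormedAddCommGroup E] [NormedSpace ℝ E] (g : ℕ → E → ℝ) (e : ℕ → ℝ)
    (hg : ∀ m, ContDiff ℝ 2 (g m)) (hd : ∀ z, ∃ m0, ∀ m, m ≠ m0 → g m =ᶠ[𝓝 z] 0)
    (he : Filter.Tendsto e Filter.atTop (𝓝 0))
    (h0 : ∀ m z, |g m z| ≤ e m) (h1 : ∀ m z, ‖fderiv ℝ (g m) z‖ ≤ e m)
    (h2 : ∀ m z, ‖fderiv ℝ (fderiv ℝ (g m)) z‖ ≤ e m) :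
    ContDiff ℝ 2 (fun z => ∑' m, g m z) ∧
    ∀ z m0, (∀ m, m ≠ m0 → g m =ᶠ[𝓝 z] 0) →
      (∑' m, g m z) = g m0 z ∧
      fderiv ℝ (fun z => ∑' m, g m z) z = fderiv ℝ (g m0) z ∧
      fderiv ℝ (fderiv ℝ (fun z => ∑' m, g m z)) z = fderiv ℝ (fderiv ℝ (g m0)) z := by
  -- key statement for an arbitrary choice function
  have key : ∀ m0 : E → ℕ, (∀ z m, m ≠ m0 z → g m =ᶠ[𝓝 z] 0) →
      (∀ z, (∑' m, g m z) = g (m0 z) z) ∧
      (∀ z, HasFDerivAt (fun z => ∑' m, g m z) (fderiv ℝ (g (m0 z)) z) z) ∧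
      (∀ z, HasFDerivAt (fun z => fderiv ℝ (g (m0 z)) z) (fderiv ℝ (fderiv ℝ (g (m0 z))) z) z) ∧
      Continuous (fun z => fderiv ℝ (fderiv ℝ (g (m0 z))) z) := by
    intro m0 hm0
    have z0 : ∀ z m, m ≠ m0 z → g m z = 0 := fun z m hm => (hm0 z m hm).eq_of_nhds
    have hf1 : ∀ z m, m ≠ m0 z → fderiv ℝ (g m) =ᶠ[𝓝 z] 0 := by
      intro z m hm
      have h := (hm0 z m hm).fderiv (𝕜 := ℝ)
      refine h.trans ?_
      filter_upwards with y
      simp
    have z1 : ∀ z m, m ≠ m0 z → fderiv ℝ (g m) z = 0 := fun z m hm => (hf1 z m hm).eq_of_nhds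
    have z2 : ∀ z m, m ≠ m0 z → fderiv ℝ (fderiv ℝ (g m)) z = 0 := by
      intro z m hm
      have h := (hf1 z m hm).fderiv (𝕜 := ℝ)
      have := h.eq_of_nhds
      rw [this]
      simp
    have T0 : ∀ z, (∑' m, g m z) = g (m0 z) z := fun z =>
      tsum_eq_single _ (fun m hm => z0 z m hm)
    have U0 := tu_aux g e m0 z0 he (fun m z => by rw [Real.norm_eq_abs]; exact h0 m z)
    have U1 := tu_aux (fun m z => fderiv ℝ (g m) z) e m0 z1 he h1
    have U2 := tu_aux (fun m z => fderiv ℝ (fderiv ℝ (g m)) z) e m0 z2 he h2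
    have D1 : ∀ m, ∀ z, HasFDerivAt (g m) (fderiv ℝ (g m) z) z := fun m z =>
      (((hg m).differentiable (by norm_num)) z).hasFDerivAt
    have C1 : ∀ m, ContDiff ℝ 1 (fderiv ℝ (g m)) := fun m =>
      (hg m).fderiv_right (by norm_num)
    have D2 : ∀ m, ∀ z, HasFDerivAt (fderiv ℝ (g m)) (fderiv ℝ (fderiv ℝ (g m)) z) z := fun m z =>
      (((C1 m).differentiable (by norm_num)) z).hasFDerivAt
    have C2 : ∀ m, Continuous (fderiv ℝ (fderiv ℝ (g m))) := fun m =>
      (C1 m).continuous_fderiv (by norm_num)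
    refine ⟨T0, ?_, ?_, ?_⟩
    · intro z
      have := hasFDerivAt_of_tendstoUniformly (𝕜 := ℝ) (l := Filter.atTop)
        (f := fun (n : ℕ) z => ∑ m ∈ Finset.range n, g m z)
        (g := fun z => ∑' m, g m z) U1
        (fun n x => HasFDerivAt.fun_sum fun m _ => D1 m x)
        (fun x => by
          have := U0.tendsto_at x
          rw [T0 x]
          exact this) z
      exact this
    · intro z
      exact hasFDerivAt_of_tendstoUniformly (𝕜 := ℝ) (l := Filter.atTop)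
        (f := fun (n : ℕ) z => ∑ m ∈ Finset.range n, fderiv ℝ (g m) z)
        (g := fun z => fderiv ℝ (g (m0 z)) z) U2
        (fun n x => HasFDerivAt.fun_sum fun m _ => D2 m x)
        (fun x => U1.tendsto_at x) z
    · exact U2.continuous (Filter.Frequently.of_forall fun n =>
        continuous_finset_sum _ fun m _ => C2 m)
  choose m0 hm0 using hd
  obtain ⟨T0, K1, K2, K3⟩ := key m0 hm0
  have E1 : fderiv ℝ (fun z => ∑' m, g m z) = fun z => fderiv ℝ (g (m0 z)) z :=
    funext fun z => (K1 z).fderiv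
  refine ⟨?_, ?_⟩
  · have h2' : (2 : WithTop ℕ∞) = 1 + 1 := by norm_num
    rw [h2', contDiff_succ_iff_fderiv]
    refine ⟨fun z => (K1 z).differentiableAt, by simp, ?_⟩
    rw [E1, contDiff_one_iff_fderiv]
    refine ⟨fun z => (K2 z).differentiableAt, ?_⟩
    have E2 : fderiv ℝ (fun z => fderiv ℝ (g (m0 z)) z) =
        fun z => fderiv ℝ (fderiv ℝ (g (m0 z))) z := funext fun z => (K2 z).fderiv
    rw [E2]
    exact K3
  · intro z m1 hm1
    classical
    let m2 : E → ℕ := Function.update m0 z m1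
    have hm2 : ∀ y m, m ≠ m2 y → g m =ᶠ[𝓝 y] 0 := by
      intro y m hm
      by_cases hy : y = z
      · subst hy
        have : m2 y = m1 := Function.update_self _ _ _
        rw [this] at hm
        exact hm1 m hm
      · have : m2 y = m0 y := Function.update_of_ne hy _ _
        rw [this] at hm
        exact hm0 y m hm
    obtain ⟨T0', K1', K2', K3'⟩ := key m2 hm2
    have hz : m2 z = m1 := Function.update_self _ _ _
    have E1' : fderiv ℝ (fun z => ∑' m, g m z) = fun z => fderiv ℝ (g (m2 z)) z :=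
      funext fun z => (K1' z).fderiv
    refine ⟨?_, ?_, ?_⟩
    · rw [T0' z, hz]
    · rw [(K1' z).fderiv, hz]
    · rw [E1', (K2' z).fderiv, hz]

end H930.FF.XDSUM

namespace H930.FF

export XDSUM (disj_sum)

end H930.FF
end
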