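import Pool.Agent.Helper930.FF.AsmDefs
import Pool.Agent.Helper930.FF.A_TUBES

set_option autoImplicit false

open MeasureTheory Topology

noncomputable section

namespace H930.FF.XGERMS

variable {al : ℝ} {N lam r sg ep : ℕ → ℝ} {gd : ℕ → Set ℤ}
  {G : ℕ → ℝ × ℝ × ℝ × ℝ → ℝ} {X P F : ℕ → ℝ → ℝ × ℝ × ℝ → ℝ}



theorem germs (h : SeqS al N lam r sg ep gd G X P F) :
    ∀ z, ∃ m0, ∀ m, m ≠ m0 → G m =ᶠ[𝓝 z] 0 := by
  classical
  intro z
  by_cases hex : ∃ m, ((z.1, z.2.1) : ℝ × ℝ) ∈ Tube al (N m) (r m)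
  · refine ⟨Nat.find hex, fun m hm => ?_⟩
    apply (h.st m).Gx z
    rcases lt_or_gt_of_ne hm with hlt | hgt
    · intro hact
      exact Nat.find_min hex hlt (act_tube h m _ hact)
    · exact tube_act h hgt _ (Nat.find_spec hex)
  · refine ⟨0, fun m _ => ?_⟩
    apply (h.st m).Gx z
    intro hact
    exact hex ⟨m, act_tube h m _ hact⟩

end H930.FF.XGERMS

namespace H930.FF

export XGERMS (germs)

end H930.FF
end
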