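import Pool.Agent.Helper930.FF.AsmDefs

set_option autoImplicit false

open MeasureTheory Topology

noncomputable section

namespace H930.FF.XPGERM



theorem part_germ {E : Type} [NormedAddCommGroup E] [NormedSpace ℝ E] (g : ℕ → E → ℝ)
    (hd : ∀ z, ∃ m0, ∀ m, m ≠ m0 → g m =ᶠ[𝓝 z] 0) (M : ℕ) (z : E) :
    ∃ m0, (∀ m, m ≠ m0 → g m =ᶠ[𝓝 z] 0) ∧
      ((m0 < M ∧ (fun z => ∑ m ∈ Finset.range M, g m z) =ᶠ[𝓝 z] g m0) ∨
       (M ≤ m0 ∧ (fun z => ∑ m ∈ Finset.range M, g m z) =ᶠ[𝓝 z] 0)) := by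
  obtain ⟨m0, h0⟩ := hd z
  refine ⟨m0, h0, ?_⟩
  by_cases hM : m0 < M
  · left
    refine ⟨hM, ?_⟩
    have h1 : ∀ᶠ y in 𝓝 z, ∀ m ∈ (Finset.range M).erase m0, g m y = 0 := by
      rw [Filter.eventually_all_finset]
      intro m hm
      exact h0 m (Finset.ne_of_mem_erase hm)
    filter_upwards [h1] with y hy
    exact Finset.sum_eq_single_of_mem m0 (Finset.mem_range.2 hM)
      (fun m hm hne => hy m (Finset.mem_erase.2 ⟨hne, hm⟩))
  · right
    refine ⟨not_lt.1 hM, ?_⟩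
    have h1 : ∀ᶠ y in 𝓝 z, ∀ m ∈ Finset.range M, g m y = 0 := by
      rw [Filter.eventually_all_finset]
      intro m hm
      refine h0 m ?_
      rintro rfl
      exact hM (Finset.mem_range.1 hm)
    filter_upwards [h1] with y hy
    exact Finset.sum_eq_zero hy

end H930.FF.XPGERM

namespace H930.FF

export XPGERM (part_germ)

end H930.FF
end
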