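import Pool.Agent.Helper930.FF.AsmDefs
import Pool.Agent.Helper930.FF.A_DSUM
import Pool.Agent.Helper930.FF.A_PGERM
import Pool.Agent.Helper930.FF.A_GERMS

set_option autoImplicit false

open MeasureTheory Topology

noncomputable section

namespace H930.FF.XBASE

variable {al : ℝ} {N lam r sg ep : ℕ → ℝ} {gd : ℕ → Set ℤ}
  {G : ℕ → ℝ × ℝ × ℝ × ℝ → ℝ} {X P F : ℕ → ℝ → ℝ × ℝ × ℝ → ℝ}



theorem base_T (h : SeqS al N lam r sg ep gd G X P F) (he : Filter.Tendsto ep Filter.atTop (𝓝 0))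
    {e : ℝ} (h1 : ∀ m, ep m ≤ e) (h2 : ∀ m, sg m ≤ e) : GBase al e (GT G) := by
  obtain ⟨hC2, hf⟩ := disj_sum G ep (fun m => (h.st m).C2) (germs h) he
    (fun m => (h.st m).s0) (fun m => (h.st m).s1) (fun m => (h.st m).s2)
  refine ⟨hC2, ⟨?_, ?_⟩, ?_, ?_, ?_, ?_, ?_, ?_⟩
  · intro t x p a
    exact tsum_congr fun m => (h.st m).per.G1 t x p a
  · intro t x p a
    exact tsum_congr fun m => (h.st m).per.Gt t x p a
  · intro t x p a hp
    have : ∀ m, G m (t, x, p, a) = 0 := fun m => (h.st m).supp t x p a ((h2 m).trans hp)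
    show ∑' m, G m (t, x, p, a) = 0
    simp [this]
  · intro t x a
    have : ∀ m, G m (t, x, 0, a) = 0 := fun m => (h.st m).zero t x a
    show ∑' m, G m (t, x, 0, a) = 0
    simp [this]
  · intro t x p a ha
    have : ∀ m, G m (t, x, p, a) = 0 := fun m => (h.st m).a0 t x p a ha
    show ∑' m, G m (t, x, p, a) = 0
    simp [this]
  · intro z
    obtain ⟨m0, hm0⟩ := germs h z
    obtain ⟨f0, f1, f2⟩ := hf z m0 hm0
    show |∑' m, G m z| ≤ e
    rw [f0]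
    exact ((h.st m0).s0 z).trans (h1 m0)
  · intro z
    obtain ⟨m0, hm0⟩ := germs h z
    obtain ⟨f0, f1, f2⟩ := hf z m0 hm0
    show ‖fderiv ℝ (fun z => ∑' m, G m z) z‖ ≤ e
    rw [f1]
    exact ((h.st m0).s1 z).trans (h1 m0)
  · intro z
    obtain ⟨m0, hm0⟩ := germs h z
    obtain ⟨f0, f1, f2⟩ := hf z m0 hm0
    show ‖fderiv ℝ (fderiv ℝ (fun z => ∑' m, G m z)) z‖ ≤ e
    rw [f2]
    exact ((h.st m0).s2 z).trans (h1 m0)

theorem base_S (h : SeqS al N lam r sg ep gd G X P F)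
    {e : ℝ} (h0 : 0 < e) (h1 : ∀ m, ep m ≤ e) (h2 : ∀ m, sg m ≤ e) (M : ℕ) : GBase al e (GS G M) := by
  have hGS : GS G M = fun z => ∑ m ∈ Finset.range M, G m z := rfl
  refine ⟨ContDiff.sum fun m _ => (h.st m).C2, ⟨?_, ?_⟩, ?_, ?_, ?_, ?_, ?_, ?_⟩
  · intro t x p a
    exact Finset.sum_congr rfl fun m _ => (h.st m).per.G1 t x p a
  · intro t x p a
    exact Finset.sum_congr rfl fun m _ => (h.st m).per.Gt t x p a
  · intro t x p a hp
    exact Finset.sum_eq_zero fun m _ => (h.st m).supp t x p a ((h2 m).trans hp)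
  · intro t x a
    exact Finset.sum_eq_zero fun m _ => (h.st m).zero t x a
  · intro t x p a ha
    exact Finset.sum_eq_zero fun m _ => (h.st m).a0 t x p a ha
  · intro z
    obtain ⟨m0, hm0, ⟨hlt, hE⟩ | ⟨hle, hE⟩⟩ := part_germ G (germs h) M z
    · have h5 : GS G M z = G m0 z := hE.eq_of_nhds
      rw [h5]
      exact ((h.st m0).s0 z).trans (h1 m0)
    · have h5 : GS G M z = 0 := hE.eq_of_nhds
      rw [h5]
      simpa using h0.le
  · intro z
    obtain ⟨m0, hm0, ⟨hlt, hE⟩ | ⟨hle, hE⟩⟩ := part_germ G (germs h) M z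
    · rw [hGS, hE.fderiv_eq]
      exact ((h.st m0).s1 z).trans (h1 m0)
    · rw [hGS, hE.fderiv_eq]
      have : (0 : ℝ × ℝ × ℝ × ℝ → ℝ) = fun _ => 0 := rfl
      rw [this]
      simpa using h0.le
  · intro z
    obtain ⟨m0, hm0, ⟨hlt, hE⟩ | ⟨hle, hE⟩⟩ := part_germ G (germs h) M z
    · rw [hGS, hE.fderiv.fderiv_eq]
      exact ((h.st m0).s2 z).trans (h1 m0)
    · rw [hGS, hE.fderiv.fderiv_eq]
      have : (0 : ℝ × ℝ × ℝ × ℝ → ℝ) = fun _ => 0 := rfl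
      have h3 : fderiv ℝ (0 : ℝ × ℝ × ℝ × ℝ → ℝ) = fun _ => 0 := by
        funext y; rw [this]; simp
      rw [h3]
      have h4 : fderiv ℝ (fun _ : ℝ × ℝ × ℝ × ℝ => (0 : ℝ × ℝ × ℝ × ℝ →L[ℝ] ℝ)) z = 0 := by simp
      rw [h4]
      exact (norm_zero (E := (ℝ × ℝ × ℝ × ℝ) →L[ℝ] (ℝ × ℝ × ℝ × ℝ) →L[ℝ] ℝ)).le.trans h0.le

theorem unif_S (h : SeqS al N lam r sg ep gd G X P F) (he : Filter.Tendsto ep Filter.atTop (𝓝 0))
    (η : ℝ) (hη : 0 < η) : ∃ M, ∀ z, |GS G M z - GT G z| ≤ η := by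
  obtain ⟨M, hM⟩ := (Metric.tendsto_atTop.1 he) η hη
  refine ⟨M, fun z => ?_⟩
  obtain ⟨hC2, hf⟩ := disj_sum G ep (fun m => (h.st m).C2) (germs h) he
    (fun m => (h.st m).s0) (fun m => (h.st m).s1) (fun m => (h.st m).s2)
  obtain ⟨m0, hm0, hor⟩ := part_germ G (germs h) M z
  obtain ⟨f0, -, -⟩ := hf z m0 hm0
  have hGT : GT G z = G m0 z := f0
  rw [hGT]
  rcases hor with ⟨hlt, hE⟩ | ⟨hle, hE⟩
  · have : GS G M z = G m0 z := hE.eq_of_nhds
    rw [this]; simpa using hη.le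
  · have : GS G M z = 0 := hE.eq_of_nhds
    rw [this, zero_sub, abs_neg]
    have h5 := hM m0 hle
    rw [Real.dist_eq, sub_zero] at h5
    exact ((h.st m0).s0 z).trans ((le_abs_self _).trans h5.le)

end H930.FF.XBASE

namespace H930.FF

export XBASE (base_T base_S unif_S)

end H930.FF
end
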