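import Pool.Agent.Helper930.FF.AsmDefs

set_option autoImplicit false

open MeasureTheory Topology

noncomputable section

namespace H930.FF.XCOMP



theorem canon_id : Canon (fun _ => 0) (fun z => z.2.1) (fun z => z.2.2) (fun _ => 0) := by
  refine ⟨contDiff_snd.fst, contDiff_snd.snd, contDiff_const, fun z v => ?_⟩
  have h1 : HasFDerivAt (fun z : ℝ × ℝ × ℝ => z.2.1)
      ((ContinuousLinearMap.fst ℝ ℝ ℝ).comp (ContinuousLinearMap.snd ℝ ℝ (ℝ × ℝ))) z :=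
    ((ContinuousLinearMap.fst ℝ ℝ ℝ).comp (ContinuousLinearMap.snd ℝ ℝ (ℝ × ℝ))).hasFDerivAt
  have h2 : fderiv ℝ (fun z : ℝ × ℝ × ℝ => z.2.1) z v = v.2.1 := by
    rw [h1.fderiv]; rfl
  have h3 : fderiv ℝ (fun _ : ℝ × ℝ × ℝ => (0:ℝ)) z v = 0 := by
    rw [fderiv_const_apply]; rfl
  rw [h2, h3]
  ring

theorem cc_comp {X1 X2 P2 : ℝ × ℝ × ℝ → ℝ} (h1 : ContDiff ℝ 2 X1) (h2 : ContDiff ℝ 2 X2)
    (h3 : ContDiff ℝ 2 P2) (z v : ℝ × ℝ × ℝ) :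
    HasFDerivAt (fun z => X1 (z.1, X2 z, P2 z))
      ((fderiv ℝ X1 (z.1, X2 z, P2 z)).comp ((ContinuousLinearMap.fst ℝ ℝ (ℝ × ℝ)).prod
        ((fderiv ℝ X2 z).prod (fderiv ℝ P2 z)))) z := by
  have d1 : HasFDerivAt X1 (fderiv ℝ X1 (z.1, X2 z, P2 z)) (z.1, X2 z, P2 z) :=
    ((h1.differentiable (by norm_num)) _).hasFDerivAt
  have d2 : HasFDerivAt X2 (fderiv ℝ X2 z) z := ((h2.differentiable (by norm_num)) _).hasFDerivAt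
  have d3 : HasFDerivAt P2 (fderiv ℝ P2 z) z := ((h3.differentiable (by norm_num)) _).hasFDerivAt
  have d4 : HasFDerivAt (fun z : ℝ × ℝ × ℝ => ((z.1, X2 z, P2 z) : ℝ × ℝ × ℝ))
      ((ContinuousLinearMap.fst ℝ ℝ (ℝ × ℝ)).prod ((fderiv ℝ X2 z).prod (fderiv ℝ P2 z))) z :=
    hasFDerivAt_fst.prodMk (d2.prodMk d3)
  exact HasFDerivAt.comp (g := X1) (f := fun z : ℝ × ℝ × ℝ => ((z.1, X2 z, P2 z) : ℝ × ℝ × ℝ))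
    z d1 d4

theorem cc_cd {X1 X2 P2 : ℝ × ℝ × ℝ → ℝ} (h1 : ContDiff ℝ 2 X1) (h2 : ContDiff ℝ 2 X2)
    (h3 : ContDiff ℝ 2 P2) : ContDiff ℝ 2 (fun z : ℝ × ℝ × ℝ => X1 (z.1, X2 z, P2 z)) :=
  h1.comp (contDiff_fst.prodMk (h2.prodMk h3))

theorem canon_comp {G1 X1 P1 F1 G2 X2 P2 F2 : ℝ × ℝ × ℝ → ℝ} (h1 : Canon G1 X1 P1 F1)
    (h2 : Canon G2 X2 P2 F2)
    (hG : ∀ z, G2 (z.1, X1 (z.1, X2 z, P2 z), P1 (z.1, X2 z, P2 z)) = G2 (z.1, X2 z, P2 z)) :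
    Canon (fun z => G1 z + G2 z) (fun z => X1 (z.1, X2 z, P2 z)) (fun z => P1 (z.1, X2 z, P2 z))
      (fun z => F1 (z.1, X2 z, P2 z) + F2 z) := by
  refine ⟨cc_cd h1.X2 h2.X2 h2.P2, cc_cd h1.P2 h2.X2 h2.P2,
    (cc_cd h1.F2 h2.X2 h2.P2).add h2.F2, fun z v => ?_⟩
  have e1 := h1.rel (z.1, X2 z, P2 z) (v.1, fderiv ℝ X2 z v, fderiv ℝ P2 z v)
  have e2 := h2.rel z v
  have a1 : fderiv ℝ (fun z : ℝ × ℝ × ℝ => X1 (z.1, X2 z, P2 z)) z v =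
      fderiv ℝ X1 (z.1, X2 z, P2 z) (v.1, fderiv ℝ X2 z v, fderiv ℝ P2 z v) := by
    rw [(cc_comp h1.X2 h2.X2 h2.P2 z v).fderiv]; rfl
  have a2 : fderiv ℝ (fun z : ℝ × ℝ × ℝ => F1 (z.1, X2 z, P2 z) + F2 z) z v =
      fderiv ℝ F1 (z.1, X2 z, P2 z) (v.1, fderiv ℝ X2 z v, fderiv ℝ P2 z v) +
        fderiv ℝ F2 z v := by
    have d2 : HasFDerivAt F2 (fderiv ℝ F2 z) z :=
      ((h2.F2.differentiable (by norm_num)) _).hasFDerivAt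
    have d3 : HasFDerivAt (fun z : ℝ × ℝ × ℝ => F1 (z.1, X2 z, P2 z) + F2 z)
      ((fderiv ℝ F1 (z.1, X2 z, P2 z)).comp ((ContinuousLinearMap.fst ℝ ℝ (ℝ × ℝ)).prod
        ((fderiv ℝ X2 z).prod (fderiv ℝ P2 z))) + fderiv ℝ F2 z) z :=
      (cc_comp h1.F2 h2.X2 h2.P2 z v).add d2
    rw [d3.fderiv]; rfl
  show P1 (z.1, X2 z, P2 z) * _ - (P1 (z.1, X2 z, P2 z) ^ 2 / 2 +
    (G1 (z.1, X1 (z.1, X2 z, P2 z), P1 (z.1, X2 z, P2 z)) +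
      G2 (z.1, X1 (z.1, X2 z, P2 z), P1 (z.1, X2 z, P2 z)))) * v.1 = _
  rw [a1, a2, hG z]
  simp only at e1
  linear_combination e1 + e2

theorem equi_comp {al : ℝ} {X1 P1 F1 X2 P2 F2 : ℝ × ℝ × ℝ → ℝ} (h1 : Equi al X1 P1 F1)
    (h2 : Equi al X2 P2 F2) :
    Equi al (fun z => X1 (z.1, X2 z, P2 z)) (fun z => P1 (z.1, X2 z, P2 z))
      (fun z => F1 (z.1, X2 z, P2 z) + F2 z) := by
  refine ⟨fun t θ c => ?_, fun t θ c => ?_, fun t θ c => ?_, fun t θ c => ?_, fun t θ c => ?_,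
    fun t θ c => ?_⟩
  · show X1 (t, X2 (t, θ + 1, c), P2 (t, θ + 1, c)) = _
    rw [h2.X1, h2.P1, h1.X1]
  · show X1 (t + 1, X2 (t + 1, θ - al, c), P2 (t + 1, θ - al, c)) = _
    rw [h2.Xt, h2.Pt, h1.Xt]
  · show P1 (t, X2 (t, θ + 1, c), P2 (t, θ + 1, c)) = _
    rw [h2.X1, h2.P1, h1.P1]
  · show P1 (t + 1, X2 (t + 1, θ - al, c), P2 (t + 1, θ - al, c)) = _
    rw [h2.Xt, h2.Pt, h1.Pt]
  · show F1 (t, X2 (t, θ + 1, c), P2 (t, θ + 1, c)) + F2 (t, θ + 1, c) = _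
    rw [h2.X1, h2.P1, h1.F1, h2.F1]
  · show F1 (t + 1, X2 (t + 1, θ - al, c), P2 (t + 1, θ - al, c)) + F2 (t + 1, θ - al, c) = _
    rw [h2.Xt, h2.Pt, h1.Ft, h2.Ft]

end H930.FF.XCOMP

namespace H930.FF

export XCOMP (canon_id canon_comp equi_comp)

end H930.FF
end
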