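import Pool.Agent.Helper930.FF.AsmDefs
import Pool.Agent.Helper930.FF.A_COMP
import Pool.Agent.Helper930.FF.A_ALT

set_option autoImplicit false

open MeasureTheory Topology

noncomputable section

namespace H930.FF.XCCAN

variable {al : ℝ} {N lam r sg ep : ℕ → ℝ} {gd : ℕ → Set ℤ}
  {G : ℕ → ℝ × ℝ × ℝ × ℝ → ℝ} {X P F : ℕ → ℝ → ℝ × ℝ × ℝ → ℝ}



theorem chain_canon (h : SeqS al N lam r sg ep gd G X P F) (a : ℝ) (M : ℕ) :
    Canon (sl (GS G M) a) (CX (fun m => X m a) (fun m => P m a) M)
      (CP (fun m => X m a) (fun m => P m a) M)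
      (CF (fun m => X m a) (fun m => P m a) (fun m => F m a) M) := by
  induction M with
  | zero =>
    have h0 : sl (GS G 0) a = fun _ => 0 := by
      funext z
      simp [sl, GS]
    rw [h0]
    exact canon_id
  | succ M ih =>
    have hs : sl (GS G (M + 1)) a = fun z => sl (GS G M) a z + sl (G M) a z := by
      funext z
      simp [sl, GS, Finset.sum_range_succ]
    rw [hs]
    exact canon_comp ih ((h.st M).canon a)
      (fun z => G_inv h a (le_refl M) (z.1, X M a z, P M a z))

theorem chain_equi (h : SeqS al N lam r sg ep gd G X P F) (a : ℝ) (M : ℕ) :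
    Equi al (CX (fun m => X m a) (fun m => P m a) M) (CP (fun m => X m a) (fun m => P m a) M)
      (CF (fun m => X m a) (fun m => P m a) (fun m => F m a) M) := by
  induction M with
  | zero =>
    constructor
    · intro t θ c; rfl
    · intro t θ c; rfl
    · intro t θ c; rfl
    · intro t θ c; rfl
    · intro t θ c; rfl
    · intro t θ c; rfl
  | succ M ih => exact equi_comp ih ((h.st M).equi a)

end H930.FF.XCCAN

namespace H930.FF

export XCCAN (chain_canon chain_equi)

end H930.FF
end
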