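import Pool.Agent.Helper930.FF.AsmDefs
import Pool.Agent.Helper930.FF.A_TUBES
import Pool.Agent.Helper930.FF.A_CCAN

set_option autoImplicit false

open MeasureTheory Topology

noncomputable section

namespace H930.FF.XCCONE

variable {al : ℝ} {N lam r sg ep : ℕ → ℝ} {gd : ℕ → Set ℤ}
  {G : ℕ → ℝ × ℝ × ℝ × ℝ → ℝ} {X P F : ℕ → ℝ → ℝ × ℝ × ℝ → ℝ}



theorem chain_cone (h : SeqS al N lam r sg ep gd G X P F) (a : ℝ) (M : ℕ) :
    ∀ z σ, |σ| ≤ 1 / N M → 0 < fderiv ℝ (CX (fun m => X m a) (fun m => P m a) M) z (0, 1, σ) := by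
  induction M with
  | zero =>
    intro z σ _
    have h1 : HasFDerivAt (CX (fun m => X m a) (fun m => P m a) 0)
        ((ContinuousLinearMap.fst ℝ ℝ ℝ).comp (ContinuousLinearMap.snd ℝ ℝ (ℝ × ℝ))) z :=
      ((ContinuousLinearMap.fst ℝ ℝ ℝ).comp (ContinuousLinearMap.snd ℝ ℝ (ℝ × ℝ))).hasFDerivAt
    rw [h1.fderiv]
    simp
  | succ M ih =>
    intro z σ hσ
    have hN := (N_ge h M M le_rfl).1
    have hNpos : 0 < N M := by linarith
    rw [h.NS] at hσ
    obtain ⟨hA, hB⟩ := (h.st M).cone a z σ hσ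
    set A := fderiv ℝ (X M a) z (0, 1, σ) with hAdef
    set B := fderiv ℝ (P M a) z (0, 1, σ) with hBdef
    have hX : HasFDerivAt (X M a) (fderiv ℝ (X M a) z) z :=
      ((((h.st M).canon a).X2).differentiable (by norm_num)).differentiableAt.hasFDerivAt
    have hP : HasFDerivAt (P M a) (fderiv ℝ (P M a) z) z :=
      ((((h.st M).canon a).P2).differentiable (by norm_num)).differentiableAt.hasFDerivAt
    have hφ : HasFDerivAt (fun z : ℝ × ℝ × ℝ => (z.1, X M a z, P M a z))
        ((ContinuousLinearMap.fst ℝ ℝ (ℝ × ℝ)).prod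
          ((fderiv ℝ (X M a) z).prod (fderiv ℝ (P M a) z))) z :=
      (ContinuousLinearMap.fst ℝ ℝ (ℝ × ℝ)).hasFDerivAt.prodMk (hX.prodMk hP)
    have hC : HasFDerivAt (CX (fun m => X m a) (fun m => P m a) M)
        (fderiv ℝ (CX (fun m => X m a) (fun m => P m a) M) (z.1, X M a z, P M a z))
        (z.1, X M a z, P M a z) :=
      (((chain_canon h a M).X2).differentiable (by norm_num)).differentiableAt.hasFDerivAt
    have hcomp : HasFDerivAt (CX (fun m => X m a) (fun m => P m a) (M + 1)) _ z :=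
      HasFDerivAt.comp z hC hφ
    rw [hcomp.fderiv]
    have e1 : ((fderiv ℝ (CX (fun m => X m a) (fun m => P m a) M) (z.1, X M a z, P M a z)).comp
        ((ContinuousLinearMap.fst ℝ ℝ (ℝ × ℝ)).prod
          ((fderiv ℝ (X M a) z).prod (fderiv ℝ (P M a) z)))) (0, 1, σ) =
        fderiv ℝ (CX (fun m => X m a) (fun m => P m a) M) (z.1, X M a z, P M a z) (0, A, B) := rfl
    rw [e1]
    have e2 : ((0 : ℝ), A, B) = A • ((0 : ℝ), (1 : ℝ), B / A) := by
      ext
      · simp
      · simp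
      · simp only [Prod.smul_mk, smul_eq_mul]
        field_simp
    rw [e2, map_smul, smul_eq_mul]
    refine mul_pos hA (ih _ _ ?_)
    rw [abs_div, abs_of_pos hA, div_le_iff₀ hA]
    exact hB

theorem chain_pz (h : SeqS al N lam r sg ep gd G X P F) (a : ℝ) (M : ℕ) (t θ : ℝ) :
    CP (fun m => X m a) (fun m => P m a) M (t, θ, 0) = 0 := by
  induction M generalizing θ with
  | zero => rfl
  | succ M ih =>
    show CP (fun m => X m a) (fun m => P m a) M (t, X M a (t, θ, 0), P M a (t, θ, 0)) = 0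
    rw [(h.st M).pz]
    exact ih _

theorem chain_core (h : SeqS al N lam r sg ep gd G X P F) (M : ℕ) (t θ : ℝ) (ht : |t| ≤ N 0 / 2)
    (hθ : |θ| ≤ lam M) :
    CX (fun m => X m 1) (fun m => P m 1) M (t, θ, 0) = 2000 ^ M * θ ∧ lam 0 = 2000 ^ M * lam M := by
  induction M generalizing θ with
  | zero => exact ⟨by simp [CX], by simp⟩
  | succ M ih =>
    have hN := (N_ge h M 0 (Nat.zero_le _)).2
    rw [h.lS] at hθ ⊢
    have h1 : X M 1 (t, θ, 0) = 2000 * θ := (h.st M).core t θ (by linarith) hθ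
    have h2 : |2000 * θ| ≤ lam M := by
      rw [abs_mul, abs_of_pos (by norm_num : (0 : ℝ) < 2000)]
      linarith
    obtain ⟨h3, h4⟩ := ih (2000 * θ) h2
    refine ⟨?_, ?_⟩
    · show CX (fun m => X m 1) (fun m => P m 1) M (t, X M 1 (t, θ, 0), P M 1 (t, θ, 0)) = _
      rw [(h.st M).pz, h1, h3]
      ring
    · rw [h4]
      ring

end H930.FF.XCCONE

namespace H930.FF

export XCCONE (chain_cone chain_pz chain_core)

end H930.FF
end
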