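import Pool.Agent.Helper930.FF.AsmDefs

set_option autoImplicit false

open MeasureTheory Topology

noncomputable section

namespace H930.FF.XHAM



theorem canon_ham_fd {Q : ℝ × ℝ × ℝ → ℝ} (hQ : ContDiff ℝ 2 Q) (z v : ℝ × ℝ × ℝ) :
    HasFDerivAt (fun z => fderiv ℝ Q z v)
      ((ContinuousLinearMap.apply ℝ ℝ v).comp (fderiv ℝ (fderiv ℝ Q) z)) z := by
  have h1 : Differentiable ℝ (fderiv ℝ Q) :=
    (hQ.fderiv_right (m := 1) (by norm_num)).differentiable (by norm_num)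
  exact (ContinuousLinearMap.apply ℝ ℝ v).hasFDerivAt.comp z (h1 z).hasFDerivAt

theorem canon_ham_rel {G X P F : ℝ × ℝ × ℝ → ℝ} (h : Canon G X P F) (hG : ContDiff ℝ 1 G)
    (z v w : ℝ × ℝ × ℝ) :
    fderiv ℝ P z w * fderiv ℝ X z v + P z * fderiv ℝ (fderiv ℝ X) z w v
      - (P z * fderiv ℝ P z w
        + fderiv ℝ G (z.1, X z, P z) (w.1, fderiv ℝ X z w, fderiv ℝ P z w)) * v.1
      = w.2.2 * v.2.1 - z.2.2 * w.2.2 * v.1 + fderiv ℝ (fderiv ℝ F) z w v := by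
  have hXd : HasFDerivAt X (fderiv ℝ X z) z := (h.X2.differentiable (by norm_num) z).hasFDerivAt
  have hPd : HasFDerivAt P (fderiv ℝ P z) z := (h.P2.differentiable (by norm_num) z).hasFDerivAt
  have hX2 := canon_ham_fd h.X2 z v
  have hF2 := canon_ham_fd h.F2 z v
  have h1 : HasFDerivAt (fun z : ℝ × ℝ × ℝ => z.1) (ContinuousLinearMap.fst ℝ ℝ (ℝ × ℝ)) z :=
    hasFDerivAt_fst
  have h3 : HasFDerivAt (fun z : ℝ × ℝ × ℝ => z.2.2)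
      ((ContinuousLinearMap.snd ℝ ℝ ℝ).comp (ContinuousLinearMap.snd ℝ ℝ (ℝ × ℝ))) z :=
    ((ContinuousLinearMap.snd ℝ ℝ ℝ).comp (ContinuousLinearMap.snd ℝ ℝ (ℝ × ℝ))).hasFDerivAt
  have hY : HasFDerivAt (fun z : ℝ × ℝ × ℝ => (z.1, X z, P z))
      ((ContinuousLinearMap.fst ℝ ℝ (ℝ × ℝ)).prod ((fderiv ℝ X z).prod (fderiv ℝ P z))) z :=
    h1.prodMk (hXd.prodMk hPd)
  have hGd : HasFDerivAt G (fderiv ℝ G (z.1, X z, P z)) (z.1, X z, P z) :=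
    (hG.differentiable (by norm_num) _).hasFDerivAt
  have hGY : HasFDerivAt (fun z : ℝ × ℝ × ℝ => G (z.1, X z, P z))
      ((fderiv ℝ G (z.1, X z, P z)).comp
      ((ContinuousLinearMap.fst ℝ ℝ (ℝ × ℝ)).prod ((fderiv ℝ X z).prod (fderiv ℝ P z)))) z :=
    hGd.comp z hY
  have hL := (hPd.mul hX2).sub ((((hPd.pow 2).mul_const 2⁻¹).add hGY).mul_const v.1)
  have hR := ((h3.mul_const v.2.1).sub (((h3.pow 2).mul_const 2⁻¹).mul_const v.1)).add hF2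
  have hLR : (fun z => P z * fderiv ℝ X z v - (P z ^ 2 * 2⁻¹ + G (z.1, X z, P z)) * v.1) =
      (fun z => z.2.2 * v.2.1 - z.2.2 ^ 2 * 2⁻¹ * v.1 + fderiv ℝ F z v) := by
    funext z
    have := h.rel z v
    linear_combination this
  have hL' : HasFDerivAt (fun z => P z * fderiv ℝ X z v - (P z ^ 2 * 2⁻¹ + G (z.1, X z, P z)) * v.1)
    _ z := hL
  rw [hLR] at hL'
  have heq := hL'.unique hR
  have heq2 := congrArg (fun (T : ℝ × ℝ × ℝ →L[ℝ] ℝ) => T w) heq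
  simp [ContinuousLinearMap.comp_apply] at heq2
  linear_combination heq2

theorem canon_ham {G X P F : ℝ × ℝ × ℝ → ℝ} (h : Canon G X P F) (hG : ContDiff ℝ 1 G) (z : ℝ × ℝ × ℝ) :
    fderiv ℝ X z (1, z.2.2, 0) = P z + fderiv ℝ G (z.1, X z, P z) (0, 0, 1) ∧
    fderiv ℝ P z (1, z.2.2, 0) = - fderiv ℝ G (z.1, X z, P z) (0, 1, 0) ∧
    fderiv ℝ P z (0, 0, 1) * fderiv ℝ X z (0, 1, 0) -
      fderiv ℝ P z (0, 1, 0) * fderiv ℝ X z (0, 0, 1) = 1 := by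
  have hsX : IsSymmSndFDerivAt ℝ X z := h.X2.contDiffAt.isSymmSndFDerivAt (by simp)
  have hsF : IsSymmSndFDerivAt ℝ F z := h.F2.contDiffAt.isSymmSndFDerivAt (by simp)
  have hlinG : ∀ a b : ℝ, fderiv ℝ G (z.1, X z, P z) (0, a, b) =
      a * fderiv ℝ G (z.1, X z, P z) (0, 1, 0) + b * fderiv ℝ G (z.1, X z, P z) (0, 0, 1) := by
    intro a b
    have : ((0, a, b) : ℝ × ℝ × ℝ) = a • ((0, 1, 0) : ℝ × ℝ × ℝ) + b • ((0, 0, 1) : ℝ × ℝ × ℝ) := by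
      simp
    rw [this, map_add, map_smul, map_smul, smul_eq_mul, smul_eq_mul]
  have hlin : ∀ (T : ℝ × ℝ × ℝ →L[ℝ] ℝ) (c : ℝ), T (1, c, 0) = T (1, 0, 0) + c * T (0, 1, 0) := by
    intro T c
    have : ((1, c, 0) : ℝ × ℝ × ℝ) = ((1, 0, 0) : ℝ × ℝ × ℝ) + c • ((0, 1, 0) : ℝ × ℝ × ℝ) := by
      simp
    rw [this, map_add, map_smul, smul_eq_mul]
  have r32 := canon_ham_rel h hG z (0, 1, 0) (0, 0, 1)
  have r23 := canon_ham_rel h hG z (0, 0, 1) (0, 1, 0)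
  have r12 := canon_ham_rel h hG z (0, 1, 0) (1, 0, 0)
  have r21 := canon_ham_rel h hG z (1, 0, 0) (0, 1, 0)
  have r13 := canon_ham_rel h hG z (0, 0, 1) (1, 0, 0)
  have r31 := canon_ham_rel h hG z (1, 0, 0) (0, 0, 1)
  rw [hsX (0, 0, 1) (0, 1, 0), hsF (0, 0, 1) (0, 1, 0)] at r32
  rw [hsX (0, 1, 0) (1, 0, 0), hsF (0, 1, 0) (1, 0, 0)] at r21
  rw [hsX (0, 0, 1) (1, 0, 0), hsF (0, 0, 1) (1, 0, 0)] at r31
  dsimp only at r32 r23 r12 r21 r13 r31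
  rw [hlinG] at r21 r31
  rw [hlin (fderiv ℝ X z) z.2.2, hlin (fderiv ℝ P z) z.2.2]
  have i1 : fderiv ℝ P z (0, 0, 1) * fderiv ℝ X z (0, 1, 0) -
      fderiv ℝ P z (0, 1, 0) * fderiv ℝ X z (0, 0, 1) = 1 := by
    linear_combination r32 - r23
  obtain ⟨X1, hX1⟩ : ∃ q, q = fderiv ℝ X z (1, 0, 0) := ⟨_, rfl⟩
  obtain ⟨X2, hX2⟩ : ∃ q, q = fderiv ℝ X z (0, 1, 0) := ⟨_, rfl⟩
  obtain ⟨X3, hX3⟩ : ∃ q, q = fderiv ℝ X z (0, 0, 1) := ⟨_, rfl⟩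
  obtain ⟨P1, hP1⟩ : ∃ q, q = fderiv ℝ P z (1, 0, 0) := ⟨_, rfl⟩
  obtain ⟨P2, hP2⟩ : ∃ q, q = fderiv ℝ P z (0, 1, 0) := ⟨_, rfl⟩
  obtain ⟨P3, hP3⟩ : ∃ q, q = fderiv ℝ P z (0, 0, 1) := ⟨_, rfl⟩
  obtain ⟨Gx, hGx⟩ : ∃ q, q = fderiv ℝ G (z.1, X z, P z) (0, 1, 0) := ⟨_, rfl⟩
  obtain ⟨Gp, hGp⟩ : ∃ q, q = fderiv ℝ G (z.1, X z, P z) (0, 0, 1) := ⟨_, rfl⟩
  simp only [← hX1, ← hX2, ← hX3, ← hP1, ← hP2, ← hP3, ← hGx, ← hGp] at r32 r23 r12 r21 r13 r31 i1 ⊢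
  have i2 : P1 * X2 - P2 * X1 + P z * P2 + Gx * X2 + Gp * P2 = 0 := by
    linear_combination r12 - r21
  have i3 : P1 * X3 - P3 * X1 + P z * P3 + Gx * X3 + Gp * P3 = z.2.2 := by
    linear_combination r13 - r31
  have j2 : (P1 + z.2.2 * P2 + Gx) * X2 - (X1 + z.2.2 * X2 - P z - Gp) * P2 = 0 := by
    linear_combination i2
  have j3 : (P1 + z.2.2 * P2 + Gx) * X3 - (X1 + z.2.2 * X2 - P z - Gp) * P3 = 0 := by
    linear_combination i3 - z.2.2 * i1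
  refine ⟨?_, ?_, i1⟩
  · linear_combination (X3) * j2 - (X2) * j3 - (X1 + z.2.2 * X2 - P z - Gp) * i1
  · linear_combination (P3) * j2 - (P2) * j3 - (P1 + z.2.2 * P2 + Gx) * i1

end H930.FF.XHAM

namespace H930.FF

export XHAM (canon_ham)

end H930.FF
end
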