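import Pool.Agent.Helper930.FF.AsmDefs

set_option autoImplicit false

open MeasureTheory Topology

noncomputable section

namespace H930.FF.XPARAMS




/-- admissible index -/
def pPar (A E : ℕ → ℝ) (m J : ℕ) : Prop :=
  ∀ i ≤ J, A i ≤ A 0 + m ∧ E i ≤ E 0 * (3 / 2) ^ m

open Classical in
/-- largest admissible index up to `m` -/
noncomputable def jPar (A E : ℕ → ℝ) (m : ℕ) : ℕ := Nat.findGreatest (pPar A E m) m

theorem pPar_zero (A E : ℕ → ℝ) (hE : 0 < E 0) (m : ℕ) : pPar A E m 0 := by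
  intro i hi
  have : i = 0 := by omega
  subst this
  refine ⟨by have : (0:ℝ) ≤ m := Nat.cast_nonneg m
             linarith, ?_⟩
  have h1 : (1:ℝ) ≤ (3 / 2 : ℝ) ^ m := one_le_pow₀ (by norm_num)
  nlinarith

theorem jPar_spec (A E : ℕ → ℝ) (hE : 0 < E 0) (m : ℕ) : pPar A E m (jPar A E m) := by
  classical
  unfold jPar
  exact Nat.findGreatest_spec (P := pPar A E m) (Nat.zero_le m) (pPar_zero A E hE m)

theorem jPar_tendsto (A E : ℕ → ℝ) (hE : 0 < E 0) :
    Filter.Tendsto (jPar A E) Filter.atTop Filter.atTop := by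
  classical
  rw [Filter.tendsto_atTop]
  intro B
  have h1 : ∀ i : ℕ, ∀ᶠ m : ℕ in Filter.atTop, A i ≤ A 0 + m ∧ E i ≤ E 0 * (3 / 2) ^ m := by
    intro i
    have ha : Filter.Tendsto (fun m : ℕ => A 0 + (m:ℝ)) Filter.atTop Filter.atTop :=
      Filter.tendsto_atTop_add_const_left _ _ tendsto_natCast_atTop_atTop
    have hb : Filter.Tendsto (fun m : ℕ => E 0 * (3 / 2 : ℝ) ^ m) Filter.atTop Filter.atTop :=
      Filter.Tendsto.const_mul_atTop hE (tendsto_pow_atTop_atTop_of_one_lt (by norm_num))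
    exact (ha.eventually_ge_atTop (A i)).and (hb.eventually_ge_atTop (E i))
  have h2 : ∀ᶠ m : ℕ in Filter.atTop, ∀ i ∈ Finset.range (B + 1),
      A i ≤ A 0 + m ∧ E i ≤ E 0 * (3 / 2) ^ m := by
    rw [Filter.eventually_all_finset]
    intro i _
    exact h1 i
  filter_upwards [h2, Filter.eventually_ge_atTop B] with m hm hB
  unfold jPar
  apply Nat.le_findGreatest hB
  intro i hi
  exact hm i (Finset.mem_range.2 (by omega))

theorem geo_le (m : ℕ) : ∑ j ∈ Finset.range (m + 1), (3 / 4 : ℝ) ^ j ≤ 4 := by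
  have h := geom_sum_eq (show (3 / 4 : ℝ) ≠ 1 by norm_num) (m + 1)
  rw [h]
  have : (0:ℝ) ≤ (3 / 4 : ℝ) ^ (m + 1) := by positivity
  rw [div_le_iff_of_neg (by norm_num)]
  linarith

theorem params (d0 K c1 e : ℝ) (Cd : ℝ → ℝ) (nmin : ℕ) (hd0 : 0 < d0) (hK : 0 < K) (hc : 0 < c1)
    (he : 0 < e) : ∃ (d : ℕ → ℝ) (n0 : ℕ) (l0 : ℝ), nmin ≤ n0 ∧ 0 < n0 ∧ 0 < l0 ∧ l0 ≤ 1 ∧
      (∀ m, 0 < d m ∧ d m ≤ d0) ∧
      (∀ m, K * d m + Cd (d m) / NN n0 m ≤ e) ∧
      Filter.Tendsto (fun m => K * d m + Cd (d m) / NN n0 m) Filter.atTop (𝓝 0) ∧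
      (∀ m, 3 * Real.exp (1 / d m) * (l0 / 2000 ^ m) / NN n0 m ≤ e) ∧
      (∀ m, ∑ j ∈ Finset.range (m + 1), NN n0 j * (10 * Real.exp (1 / d j) * (l0 / 2000 ^ j)) ≤ c1) := by
  obtain ⟨ds, hds0, hds1, hds2⟩ : ∃ ds : ℝ, 0 < ds ∧ ds ≤ d0 ∧ K * ds ≤ e / 4 := by
    refine ⟨min d0 (e / (4 * K)), lt_min hd0 (by positivity), min_le_left _ _, ?_⟩
    calc K * min d0 (e / (4 * K)) ≤ K * (e / (4 * K)) :=
          mul_le_mul_of_nonneg_left (min_le_right _ _) hK.le
      _ = e / 4 := by field_simp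
  let A : ℕ → ℝ := fun i => |Cd (ds / (i + 1))|
  let E : ℕ → ℝ := fun i => Real.exp (1 / (ds / (i + 1)))
  have hE : 0 < E 0 := Real.exp_pos _
  have hA0 : 0 ≤ A 0 := abs_nonneg _
  obtain ⟨n0, hn0, hn1, hn2⟩ : ∃ n0 : ℕ, nmin ≤ n0 ∧ 1 ≤ n0 ∧ (A 0 + 1) / (2 * n0) ≤ e / 2 := by
    obtain ⟨k, hk⟩ := exists_nat_ge ((A 0 + 1) / e)
    refine ⟨max nmin (max 1 k), le_max_left _ _, le_trans (le_max_left _ _) (le_max_right _ _), ?_⟩
    have h1 : (k:ℝ) ≤ ((max nmin (max 1 k) : ℕ) : ℝ) := by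
      exact_mod_cast le_trans (le_max_right _ _) (le_max_right _ _)
    have h2 : (1:ℝ) ≤ ((max nmin (max 1 k) : ℕ) : ℝ) := by
      exact_mod_cast le_trans (le_max_left _ _) (le_max_right _ _)
    rw [div_le_iff₀ (by linarith)]
    rw [div_le_iff₀ he] at hk
    nlinarith
  have hn1' : (1:ℝ) ≤ n0 := by exact_mod_cast hn1
  obtain ⟨l0, hl0, hl1, hl2, hl3⟩ : ∃ l0 : ℝ, 0 < l0 ∧ l0 ≤ 1 ∧ 80 * n0 * E 0 * l0 ≤ c1 ∧
      3 * E 0 * l0 ≤ e := by
    refine ⟨min 1 (min (c1 / (80 * n0 * E 0)) (e / (3 * E 0))), ?_, min_le_left _ _, ?_, ?_⟩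
    · have : (0:ℝ) < n0 := by linarith
      exact lt_min one_pos (lt_min (by positivity) (by positivity))
    · have hp : (0:ℝ) < 80 * n0 * E 0 := by positivity
      calc 80 * n0 * E 0 * min 1 (min (c1 / (80 * n0 * E 0)) (e / (3 * E 0)))
          ≤ 80 * n0 * E 0 * (c1 / (80 * n0 * E 0)) :=
            mul_le_mul_of_nonneg_left (le_trans (min_le_right _ _) (min_le_left _ _)) hp.le
        _ = c1 := by field_simp
    · have hp : (0:ℝ) < 3 * E 0 := by positivity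
      calc 3 * E 0 * min 1 (min (c1 / (80 * n0 * E 0)) (e / (3 * E 0)))
          ≤ 3 * E 0 * (e / (3 * E 0)) :=
            mul_le_mul_of_nonneg_left (le_trans (min_le_right _ _) (min_le_right _ _)) hp.le
        _ = e := by field_simp
  let J : ℕ → ℕ := jPar A E
  let d : ℕ → ℝ := fun m => ds / (J m + 1)
  have hJ : ∀ m, A (J m) ≤ A 0 + m ∧ E (J m) ≤ E 0 * (3 / 2) ^ m := fun m =>
    jPar_spec A E hE m (J m) le_rfl
  have hdpos : ∀ m, 0 < d m := fun m => by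
    show 0 < ds / ((J m : ℝ) + 1)
    positivity
  have hdle : ∀ m, d m ≤ ds := fun m => by
    show ds / ((J m : ℝ) + 1) ≤ ds
    apply div_le_self hds0.le
    have : (0:ℝ) ≤ (J m : ℝ) := Nat.cast_nonneg _
    linarith
  have hNpos : ∀ m, 0 < NN n0 m := fun m => by
    have : (0:ℝ) < n0 := by linarith
    show 0 < 2 * (n0:ℝ) * 1000 ^ m
    positivity
  have hC : ∀ m, |Cd (d m) / NN n0 m| ≤ (A 0 + 1) / (2 * n0) * (1 / 500) ^ m := by
    intro m
    rw [abs_div, abs_of_pos (hNpos m)]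
    have h1 : |Cd (d m)| ≤ A 0 + m := (hJ m).1
    have h2 : (A 0 + m : ℝ) ≤ (A 0 + 1) * 2 ^ m := by
      have h3 : ((m:ℝ) + 1) ≤ 2 ^ m := by
        have := Nat.lt_two_pow_self (n := m)
        exact_mod_cast this
      have h4 : (0:ℝ) ≤ (m:ℝ) := Nat.cast_nonneg m
      nlinarith
    have h5 : (A 0 + 1) / (2 * n0) * (1 / 500) ^ m = ((A 0 + 1) * 2 ^ m) / NN n0 m := by
      have : (0:ℝ) < n0 := by linarith
      unfold NN
      rw [show (1000:ℝ) = 2 * 500 by norm_num, mul_pow, one_div, inv_pow]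
      field_simp
    rw [h5]
    exact div_le_div_of_nonneg_right (h1.trans h2) (hNpos m).le
  refine ⟨d, n0, l0, hn0, by omega, hl0, hl1, fun m => ⟨hdpos m, (hdle m).trans hds1⟩, ?_, ?_, ?_, ?_⟩
  · intro m
    have h1 : K * d m ≤ e / 4 := (mul_le_mul_of_nonneg_left (hdle m) hK.le).trans hds2
    have h2 : Cd (d m) / NN n0 m ≤ (A 0 + 1) / (2 * n0) * (1 / 500) ^ m :=
      (le_abs_self _).trans (hC m)
    have h3 : (1 / 500 : ℝ) ^ m ≤ 1 := pow_le_one₀ (by norm_num) (by norm_num)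
    have h4 : 0 ≤ (A 0 + 1) / (2 * n0) := by positivity
    nlinarith
  · have h1 : Filter.Tendsto (fun m => K * d m) Filter.atTop (𝓝 0) := by
      have hJt : Filter.Tendsto (fun m => ((J m : ℝ) + 1)) Filter.atTop Filter.atTop :=
        Filter.tendsto_atTop_add_const_right _ _
          (tendsto_natCast_atTop_atTop.comp (jPar_tendsto A E hE))
      have h2 : Filter.Tendsto d Filter.atTop (𝓝 0) := hJt.const_div_atTop ds
      simpa using h2.const_mul K
    have h2 : Filter.Tendsto (fun m => Cd (d m) / NN n0 m) Filter.atTop (𝓝 0) := by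
      apply squeeze_zero_norm (a := fun m => (A 0 + 1) / (2 * n0) * (1 / 500 : ℝ) ^ m)
      · intro m
        rw [Real.norm_eq_abs]
        exact hC m
      · have := (tendsto_pow_atTop_nhds_zero_of_lt_one (r := (1 / 500 : ℝ)) (by norm_num)
          (by norm_num)).const_mul ((A 0 + 1) / (2 * n0))
        simpa using this
    simpa using h1.add h2
  · intro m
    have h1 : Real.exp (1 / d m) ≤ E 0 * (3 / 2) ^ m := (hJ m).2
    have hN2 : (1:ℝ) * 1000 ^ m ≤ NN n0 m := by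
      show (1:ℝ) * 1000 ^ m ≤ 2 * (n0:ℝ) * 1000 ^ m
      exact mul_le_mul_of_nonneg_right (by linarith) (by positivity)
    have hN1 : (1:ℝ) ≤ NN n0 m := by
      have : (1:ℝ) ≤ 1000 ^ m := one_le_pow₀ (by norm_num)
      linarith
    have h0 : 0 ≤ 3 * Real.exp (1 / d m) * (l0 / 2000 ^ m) := by positivity
    calc 3 * Real.exp (1 / d m) * (l0 / 2000 ^ m) / NN n0 m
        ≤ 3 * Real.exp (1 / d m) * (l0 / 2000 ^ m) := div_le_self h0 hN1
      _ ≤ 3 * (E 0 * (3 / 2) ^ m) * (l0 / 2000 ^ m) := by gcongr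
      _ = 3 * E 0 * l0 * ((3 / 2) ^ m / 2000 ^ m) := by ring
      _ ≤ 3 * E 0 * l0 * 1 := by
          have : (3 / 2 : ℝ) ^ m / 2000 ^ m ≤ 1 := by
            rw [div_le_one (by positivity)]
            exact pow_le_pow_left₀ (by norm_num) (by norm_num) m
          exact mul_le_mul_of_nonneg_left this (by positivity)
      _ ≤ e := by rw [mul_one]; exact hl3
  · intro m
    have h1 : ∀ j ∈ Finset.range (m + 1), NN n0 j * (10 * Real.exp (1 / d j) * (l0 / 2000 ^ j)) ≤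
        20 * n0 * E 0 * l0 * (3 / 4) ^ j := by
      intro j _
      have h2 : Real.exp (1 / d j) ≤ E 0 * (3 / 2) ^ j := (hJ j).2
      calc NN n0 j * (10 * Real.exp (1 / d j) * (l0 / 2000 ^ j))
          ≤ NN n0 j * (10 * (E 0 * (3 / 2) ^ j) * (l0 / 2000 ^ j)) := by
            have := (hNpos j).le
            gcongr
        _ = 20 * n0 * E 0 * l0 * (3 / 4) ^ j := by
            unfold NN
            have h34 : (3 / 4 : ℝ) ^ j = 1000 ^ j * (3 / 2) ^ j / 2000 ^ j := by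
              rw [← mul_pow, ← div_pow]
              norm_num
            rw [h34]
            ring
    calc ∑ j ∈ Finset.range (m + 1), NN n0 j * (10 * Real.exp (1 / d j) * (l0 / 2000 ^ j))
        ≤ ∑ j ∈ Finset.range (m + 1), 20 * n0 * E 0 * l0 * (3 / 4) ^ j := Finset.sum_le_sum h1
      _ = 20 * n0 * E 0 * l0 * ∑ j ∈ Finset.range (m + 1), (3 / 4 : ℝ) ^ j := by
          rw [Finset.mul_sum]
      _ ≤ 20 * n0 * E 0 * l0 * 4 := mul_le_mul_of_nonneg_left (geo_le m) (by positivity)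
      _ = 80 * n0 * E 0 * l0 := by ring
      _ ≤ c1 := hl2

end H930.FF.XPARAMS

namespace H930.FF

export XPARAMS (params)

end H930.FF
end
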