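import Pool.Agent.Helper930.FF.AsmDefs
import Pool.Agent.Helper930.FF.A_HAM
import Pool.Agent.Helper930.FF.A_DSUM
import Pool.Agent.Helper930.FF.A_PGERM
import Pool.Agent.Helper930.FF.A_TUBES
import Pool.Agent.Helper930.FF.A_GERMS
import Pool.Agent.Helper930.FF.A_ALT
import Pool.Agent.Helper930.FF.A_CCAN
import Pool.Agent.Helper930.FF.A_CCONE

set_option autoImplicit false

open MeasureTheory Topology

noncomputable section

namespace H930.FF.XSFLOW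

variable {al : ℝ} {N lam r sg ep : ℕ → ℝ} {gd : ℕ → Set ℤ}
  {G : ℕ → ℝ × ℝ × ℝ × ℝ → ℝ} {X P F : ℕ → ℝ → ℝ × ℝ × ℝ → ℝ}



theorem sl_fderiv202 (H : ℝ × ℝ × ℝ × ℝ → ℝ) (hH : Differentiable ℝ H) (a : ℝ) (q : ℝ × ℝ × ℝ)
    (v : ℝ × ℝ × ℝ) : fderiv ℝ (sl H a) q v =
      fderiv ℝ H (q.1, q.2.1, q.2.2, a) (v.1, v.2.1, v.2.2, 0) := by
  have h1 : HasFDerivAt (fun z : ℝ × ℝ × ℝ => (z.1, z.2.1, z.2.2, a))
      ((ContinuousLinearMap.fst ℝ ℝ (ℝ × ℝ)).prod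
        (((ContinuousLinearMap.fst ℝ ℝ ℝ).comp (ContinuousLinearMap.snd ℝ ℝ (ℝ × ℝ))).prod
          (((ContinuousLinearMap.snd ℝ ℝ ℝ).comp (ContinuousLinearMap.snd ℝ ℝ (ℝ × ℝ))).prod
            (0 : ℝ × ℝ × ℝ →L[ℝ] ℝ)))) q := by
    refine HasFDerivAt.prodMk hasFDerivAt_fst (HasFDerivAt.prodMk ?_ (HasFDerivAt.prodMk ?_
      (hasFDerivAt_const a q)))
    · exact (ContinuousLinearMap.hasFDerivAt
        ((ContinuousLinearMap.fst ℝ ℝ ℝ).comp (ContinuousLinearMap.snd ℝ ℝ (ℝ × ℝ))))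
    · exact (ContinuousLinearMap.hasFDerivAt
        ((ContinuousLinearMap.snd ℝ ℝ ℝ).comp (ContinuousLinearMap.snd ℝ ℝ (ℝ × ℝ))))
  have h2 : HasFDerivAt H (fderiv ℝ H (q.1, q.2.1, q.2.2, a)) (q.1, q.2.1, q.2.2, a) :=
    (hH _).hasFDerivAt
  have h3 := HasFDerivAt.comp (f := fun z : ℝ × ℝ × ℝ => (z.1, z.2.1, z.2.2, a)) q h2 h1
  have h4 : sl H a = H ∘ fun z : ℝ × ℝ × ℝ => (z.1, z.2.1, z.2.2, a) := rfl
  rw [h4, h3.fderiv]
  rfl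

theorem slice_fderiv202 (f : ℝ × ℝ × ℝ → ℝ) (hf : Differentiable ℝ f) (q : ℝ × ℝ)
    (v : ℝ × ℝ) : fderiv ℝ (fun y : ℝ × ℝ => f (y.1, y.2, 0)) q v =
      fderiv ℝ f (q.1, q.2, 0) (v.1, v.2, 0) := by
  have h1 : HasFDerivAt (fun z : ℝ × ℝ => (z.1, z.2, (0:ℝ)))
      ((ContinuousLinearMap.fst ℝ ℝ ℝ).prod
        ((ContinuousLinearMap.snd ℝ ℝ ℝ).prod (0 : ℝ × ℝ →L[ℝ] ℝ))) q :=
    HasFDerivAt.prodMk hasFDerivAt_fst (HasFDerivAt.prodMk hasFDerivAt_snd (hasFDerivAt_const 0 q))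
  have h2 : HasFDerivAt f (fderiv ℝ f (q.1, q.2, 0)) (q.1, q.2, (0:ℝ)) :=
    (hf _).hasFDerivAt
  have h3 := HasFDerivAt.comp (f := fun z : ℝ × ℝ => (z.1, z.2, (0:ℝ))) q h2 h1
  have h4 : (fun y : ℝ × ℝ => f (y.1, y.2, 0)) = f ∘ fun z : ℝ × ℝ => (z.1, z.2, (0:ℝ)) := rfl
  rw [h4, h3.fderiv]
  rfl

theorem strip_flow (h : SeqS al N lam r sg ep gd G X P F) (he : Filter.Tendsto ep Filter.atTop (𝓝 0))
    (M : ℕ) (t θ : ℝ) (ht : |t| < N M / 2) (hθ : |θ| < lam M) :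
    fderiv ℝ (fun y : ℝ × ℝ => CX (fun m => X m 1) (fun m => P m 1) M (y.1, y.2, 0)) (t, θ) (1, 0) =
      fderiv ℝ (GT G) (t, CX (fun m => X m 1) (fun m => P m 1) M (t, θ, 0), 0, 1) (0, 0, 1, 0) := by
  obtain ⟨cx, hcx⟩ : ∃ cx, cx = CX (fun m => X m 1) (fun m => P m 1) M := ⟨_, rfl⟩
  obtain ⟨w, hw⟩ : ∃ w : ℝ × ℝ × ℝ × ℝ, w = (t, cx (t, θ, 0), 0, 1) := ⟨_, rfl⟩
  have hcan := chain_canon h 1 M
  have hpz := chain_pz h 1 M t θ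
  have halt := chain_alt h 1 M (t, θ, 0)
  rw [← hcx] at hcan halt ⊢
  rw [← hw]
  have hclaim : ∀ m, M ≤ m → G m =ᶠ[𝓝 w] 0 := by
    intro m hm
    refine (h.st m).Gx w ?_
    rw [hw]
    show (t, cx (t, θ, 0)) ∉ ActTube al (r m) (gd m)
    rcases halt with ⟨h1, -⟩ | ⟨-, j, hj, h2⟩
    · have h1' : cx (t, θ, 0) = θ := h1
      rw [h1']
      have h3 := core_act h M t θ ht (hθ.le.trans (h.lr M))
      rcases hm.eq_or_lt with h4 | h4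
      · rw [← h4]; exact h3.1
      · exact tube_act h h4 (t, θ) h3.2
    · exact tube_act h (lt_of_lt_of_le hj hm) _ h2
  have hGS2 : ContDiff ℝ 2 (GS G M) := by
    have h1 : GS G M = fun z => ∑ m ∈ Finset.range M, G m z := rfl
    rw [h1]
    exact ContDiff.sum fun m _ => (h.st m).C2
  have hGSd : Differentiable ℝ (GS G M) := hGS2.differentiable (by norm_num)
  have hsl : ContDiff ℝ 1 (sl (GS G M) 1) := by
    have h1 : sl (GS G M) 1 = GS G M ∘ fun z : ℝ × ℝ × ℝ => (z.1, z.2.1, z.2.2, (1:ℝ)) := rfl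
    rw [h1]
    refine (hGS2.of_le (by norm_num)).comp ?_
    fun_prop
  have hham := (canon_ham hcan hsl (t, θ, 0)).1
  rw [hpz] at hham
  have hham' : fderiv ℝ cx (t, θ, 0) (1, 0, 0) =
      0 + fderiv ℝ (sl (GS G M) 1) (t, cx (t, θ, 0), 0) (0, 0, 1) := hham
  rw [sl_fderiv202 _ hGSd, zero_add] at hham'
  have h5 : fderiv ℝ (fun y : ℝ × ℝ => cx (y.1, y.2, 0)) (t, θ) (1, 0) =
      fderiv ℝ cx (t, θ, 0) (1, 0, 0) :=
    slice_fderiv202 cx (hcan.X2.differentiable (by norm_num)) (t, θ) (1, 0)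
  rw [h5, hham']
  have h6 : fderiv ℝ (GS G M) w = fderiv ℝ (GT G) w := by
    obtain ⟨m0, hm0, hcase⟩ := part_germ G (germs h) M w
    have h7 : fderiv ℝ (GT G) w = fderiv ℝ (G m0) w :=
      ((disj_sum G ep (fun m => (h.st m).C2) (germs h) he (fun m => (h.st m).s0)
        (fun m => (h.st m).s1) (fun m => (h.st m).s2)).2 w m0 hm0).2.1
    rw [h7]
    rcases hcase with ⟨-, h8⟩ | ⟨h8, h9⟩
    · exact Filter.EventuallyEq.fderiv_eq h8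
    · have h10 : fderiv ℝ (GS G M) w = fderiv ℝ (0 : ℝ × ℝ × ℝ × ℝ → ℝ) w :=
        Filter.EventuallyEq.fderiv_eq h9
      rw [h10, Filter.EventuallyEq.fderiv_eq (hclaim m0 h8)]
  rw [← h6, hw]

end H930.FF.XSFLOW

namespace H930.FF

export XSFLOW (strip_flow)

end H930.FF
end
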