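import Pool.Agent.Helper930.FF.AsmDefs
import Pool.Agent.Helper930.FF.A_TUBES
import Pool.Agent.Helper930.FF.A_CCAN
import Pool.Agent.Helper930.FF.A_CCONE
import Pool.Agent.Helper930.FF.A_SFLOW

set_option autoImplicit false

open MeasureTheory Topology

noncomputable section

namespace H930.FF.XSALL

variable {al : ℝ} {N lam r sg ep : ℕ → ℝ} {gd : ℕ → Set ℤ}
  {G : ℕ → ℝ × ℝ × ℝ × ℝ → ℝ} {X P F : ℕ → ℝ → ℝ × ℝ × ℝ → ℝ}



theorem strip_all_mono (h : SeqS al N lam r sg ep gd G X P F) (M : ℕ) (y : ℝ × ℝ) :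
    0 < fderiv ℝ (fun y : ℝ × ℝ => CX (fun m => X m 1) (fun m => P m 1) M (y.1, y.2, 0)) y (0, 1) := by
  have hd : Differentiable ℝ (CX (fun m => X m 1) (fun m => P m 1) M) :=
    (chain_canon h 1 M).X2.differentiable (by norm_num)
  let L : ℝ × ℝ →L[ℝ] ℝ × ℝ × ℝ :=
    (ContinuousLinearMap.fst ℝ ℝ ℝ).prod ((ContinuousLinearMap.snd ℝ ℝ ℝ).prod 0)
  have e : (fun y : ℝ × ℝ => CX (fun m => X m 1) (fun m => P m 1) M (y.1, y.2, 0)) =
      CX (fun m => X m 1) (fun m => P m 1) M ∘ L := rfl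
  rw [e, fderiv_comp y (hd _) L.differentiableAt, L.fderiv]
  have hN := (N_ge h M M le_rfl).1
  exact chain_cone h 1 M (L y) 0 (by rw [abs_zero]; positivity)

theorem strip_all_diff (h : SeqS al N lam r sg ep gd G X P F) (M : ℕ) :
    ContDiff ℝ 2 (fun y : ℝ × ℝ => CX (fun m => X m 1) (fun m => P m 1) M (y.1, y.2, 0)) :=
  (chain_canon h 1 M).X2.comp (contDiff_fst.prodMk (contDiff_snd.prodMk contDiff_const))

theorem strip_all_strict (h : SeqS al N lam r sg ep gd G X P F) (M : ℕ) (t : ℝ) :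
    StrictMono (fun θ : ℝ => CX (fun m => X m 1) (fun m => P m 1) M (t, θ, 0)) := by
  apply strictMono_of_deriv_pos
  intro θ
  have hd : DifferentiableAt ℝ
      (fun y : ℝ × ℝ => CX (fun m => X m 1) (fun m => P m 1) M (y.1, y.2, 0)) (t, θ) :=
    (strip_all_diff h M).differentiable (by norm_num) _
  have h1 : HasDerivAt (fun θ : ℝ => ((t, θ) : ℝ × ℝ)) (0, 1) θ :=
    (hasDerivAt_const θ t).prodMk (hasDerivAt_id θ)
  have h2 := hd.hasFDerivAt.comp_hasDerivAt θ h1
  have h3 : deriv (fun θ : ℝ => CX (fun m => X m 1) (fun m => P m 1) M (t, θ, 0)) θ =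
      fderiv ℝ (fun y : ℝ × ℝ => CX (fun m => X m 1) (fun m => P m 1) M (y.1, y.2, 0)) (t, θ)
        (0, 1) := h2.deriv
  rw [h3]
  exact strip_all_mono h M (t, θ)

theorem strip_all (h : SeqS al N lam r sg ep gd G X P F) (he : Filter.Tendsto ep Filter.atTop (𝓝 0))
    (M : ℕ) :
    Strip al (GT G) (N M / 2) (lam M) (lam 0 / 4)
      (fun y : ℝ × ℝ => CX (fun m => X m 1) (fun m => P m 1) M (y.1, y.2, 0)) := by
  refine ⟨strip_all_diff h M, ?_, ?_, strip_all_mono h M, ?_, ?_, ?_⟩
  · intro t θ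
    exact (chain_equi h 1 M).X1 t θ 0
  · intro t θ
    exact (chain_equi h 1 M).Xt t θ 0
  · intro k j t θ ht hθ htk hθk
    have hN := (N_ge h M M le_rfl).1
    have hlr := h.lr M
    apply h.emb M k j
    · have e : (k : ℝ) = (t + k) - t := by ring
      rw [e]
      have := abs_sub (t + (k : ℝ)) t
      linarith
    · have e : (j : ℝ) - k * al = (θ + (j - k * al)) - θ := by ring
      rw [e]
      have := abs_sub (θ + ((j : ℝ) - k * al)) θ
      linarith
  · intro t θ ht hθ
    exact strip_flow h he M t θ ht hθ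
  · intro t θ ht hX
    have hX' : |CX (fun m => X m 1) (fun m => P m 1) M (t, θ, 0)| ≤ lam 0 / 4 := hX
    have hN0 := h.N0
    have hl0 := h.lpos 0
    have hlM := h.lpos M
    have ht' : |t| ≤ N 0 / 2 := by linarith
    have hsm := strip_all_strict h M t
    obtain ⟨c1, c2⟩ := chain_core h M t (lam M / 2) ht' (by
      rw [abs_of_pos (by linarith)]; linarith)
    obtain ⟨c3, -⟩ := chain_core h M t (-(lam M / 2)) ht' (by
      rw [abs_neg, abs_of_pos (by linarith)]; linarith)
    have c1' : CX (fun m => X m 1) (fun m => P m 1) M (t, lam M / 2, 0) = lam 0 / 2 := by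
      rw [c1, c2]; ring
    have c3' : CX (fun m => X m 1) (fun m => P m 1) M (t, -(lam M / 2), 0) = -(lam 0 / 2) := by
      rw [c3, c2]; ring
    obtain ⟨b1, b2⟩ := abs_le.1 hX'
    rw [abs_le]
    constructor
    · by_contra hc
      push Not at hc
      have h1 := hsm hc
      simp only at h1
      rw [c3'] at h1
      linarith
    · by_contra hc
      push Not at hc
      have h1 := hsm hc
      simp only at h1
      rw [c1'] at h1
      linarith

end H930.FF.XSALL

namespace H930.FF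

export XSALL (strip_all)

end H930.FF
end
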