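import Pool.Agent.Helper930.FF.A_HAM
import Pool.Agent.Helper930.FF.A_COMP
import Pool.Agent.Helper930.FF.A_DSUM
import Pool.Agent.Helper930.FF.A_PGERM
import Pool.Agent.Helper930.FF.A_TUBES
import Pool.Agent.Helper930.FF.A_GERMS
import Pool.Agent.Helper930.FF.A_ALT
import Pool.Agent.Helper930.FF.A_CCAN
import Pool.Agent.Helper930.FF.A_CCONE
import Pool.Agent.Helper930.FF.A_SFLOW
import Pool.Agent.Helper930.FF.A_SALL
import Pool.Agent.Helper930.FF.A_BASE
import Pool.Agent.Helper930.FF.A_PARAMS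

set_option autoImplicit false
open MeasureTheory Topology

noncomputable section

namespace H930.FF

section seq
variable {al : ℝ} {N lam r sg ep : ℕ → ℝ} {gd : ℕ → Set ℤ}
  {G : ℕ → ℝ × ℝ × ℝ × ℝ → ℝ} {X P F : ℕ → ℝ → ℝ × ℝ × ℝ → ℝ}

theorem chain_pc (h : SeqS al N lam r sg ep gd G X P F) {e : ℝ} (h2 : ∀ m, sg m ≤ e) (a : ℝ) (M : ℕ)
    (z : ℝ × ℝ × ℝ) :
    CP (fun m => X m a) (fun m => P m a) M z = z.2.2 ∨
      (|z.2.2| ≤ e ∧ |CP (fun m => X m a) (fun m => P m a) M z| ≤ e) := by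
  induction M generalizing z with
  | zero => left; simp [CP]
  | succ M ih =>
    have h1 := ih (z.1, X M a z, P M a z)
    have h3 := (h.st M).pc a z
    have h4 := h2 M
    change CP (fun m => X m a) (fun m => P m a) M (z.1, X M a z, P M a z) = z.2.2 ∨
      (|z.2.2| ≤ e ∧ |CP (fun m => X m a) (fun m => P m a) M (z.1, X M a z, P M a z)| ≤ e)
    simp only at h1
    rcases h1 with h1 | ⟨h1, h1'⟩ <;> rcases h3 with h3 | ⟨h3, h3'⟩
    · left; rw [h1, h3]
    · right; rw [h1]; exact ⟨h3.trans h4, h3'.trans h4⟩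
    · right; rw [h3] at h1; exact ⟨h1, h1'⟩
    · right; exact ⟨h3.trans h4, h1'⟩

theorem kfam (h : SeqS al N lam r sg ep gd G X P F) (he : Filter.Tendsto ep Filter.atTop (𝓝 0))
    {e : ℝ} (h0 : 0 < e) (h1 : ∀ m, ep m ≤ e) (h2 : ∀ m, sg m ≤ e) :
    KFam al e (GT G) (GS G) where
  base := base_T h he h1 h2
  bases := base_S h h0 h1 h2
  unif := unif_S h he
  triple := fun M a => ⟨_, _, _, chain_canon h a M, chain_equi h a M, fun z =>
    chain_cone h a M z 0 (by
      have := (N_ge h M M le_rfl).1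
      simp only [abs_zero]; positivity), chain_pc h h2 a M⟩
  gap := ⟨lam 0 / 4, by have := h.lpos 0; positivity, fun n => by
    obtain ⟨M, hM⟩ : ∃ M : ℕ, (n : ℝ) ≤ N M / 2 := by
      refine ⟨n, ?_⟩
      have h3 : ∀ m : ℕ, (m : ℝ) + 1 ≤ N m / 2 + 1 := by
        intro m
        induction m with
        | zero => have := h.N0; simp; linarith
        | succ m ih => rw [h.NS m]; push_cast; have := (N_ge h m m le_rfl).1; linarith
      have := h3 n; linarith
    exact ⟨N M / 2, hM, lam M, h.lpos M, _, strip_all h he M⟩⟩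

end seq

/-- ASSEMBLY module, complete. -/
theorem assembly : AssemblyThm := by
  intro hB hS
  obtain ⟨al, Cb, c1, nmin, hc1, hn, hS⟩ := hS
  refine ⟨al, fun e he => ?_⟩
  obtain ⟨d0, K, Cd, hd0, hK, hB⟩ := hB Cb
  obtain ⟨d, n0, l0, hn0, hn0', hl0, hl01, hd, he1, he2, hsg, hsum⟩ := params d0 K c1 e Cd nmin hd0 hK hc1 he
  have hlam : ∀ m : ℕ, 0 < l0 / 2000 ^ m := fun m => by positivity
  obtain ⟨gd, b, k, hS⟩ := hS n0 hn0 (fun m => 10 * Real.exp (1 / d m) * (l0 / 2000 ^ m))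
    (fun m => mul_pos (by positivity) (hlam m)) hsum
  have hNN : ∀ m, 1 ≤ NN n0 m := by
    intro m
    have h1 : (1:ℝ) ≤ n0 := by exact_mod_cast hn0'
    have h2 : (1:ℝ) ≤ 1000 ^ m := one_le_pow₀ (by norm_num)
    unfold NN; nlinarith
  have hb : ∀ m, ∃ (G : ℝ × ℝ × ℝ × ℝ → ℝ) (X P F : ℝ → ℝ × ℝ × ℝ → ℝ),
      Stage al (NN n0 m) (l0 / 2000 ^ m) (10 * Real.exp (1 / d m) * (l0 / 2000 ^ m))
        (3 * Real.exp (1 / d m) * (l0 / 2000 ^ m) / NN n0 m)
        (K * d m + Cd (d m) / NN n0 m) (gd m) G X P F := fun m =>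
    hB (d m) (hd m).1 (hd m).2 al (NN n0 m) (l0 / 2000 ^ m) (gd m) (b m) (k m) (hNN m) (hlam m)
      ((div_le_self hl0.le (one_le_pow₀ (by norm_num))).trans hl01) (hS m).1 (hS m).2.1
  choose G X P F hst using hb
  have hseq : SeqS al (fun m => NN n0 m) (fun m => l0 / 2000 ^ m)
      (fun m => 10 * Real.exp (1 / d m) * (l0 / 2000 ^ m))
      (fun m => 3 * Real.exp (1 / d m) * (l0 / 2000 ^ m) / NN n0 m)
      (fun m => K * d m + Cd (d m) / NN n0 m) gd G X P F :=
    { st := hst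
      N0 := hNN 0
      NS := fun m => by simp only [NN]; ring
      lpos := hlam
      lS := fun m => by rw [pow_succ]; field_simp
      lr := fun m => by
        have h1 : (1:ℝ) ≤ Real.exp (1 / d m) := Real.one_le_exp (by have := (hd m).1; positivity)
        have h2 := hlam m
        have h3 : 1 * (l0 / 2000 ^ m) ≤ 10 * Real.exp (1 / d m) * (l0 / 2000 ^ m) :=
          mul_le_mul_of_nonneg_right (by linarith) h2.le
        linarith
      emb := fun m => (hS m).2.1
      gdr := fun m => (hS m).1.gdr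
      pause := fun m => (hS m).2.2 }
  exact ⟨GT G, GS G, kfam hseq he2 he he1 hsg⟩

end H930.FF
end
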