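import Pool.Agent.Helper930.FF.Defs

set_option autoImplicit false
open MeasureTheory Topology

noncomputable section

namespace H930.FF

/-- composite angle map of the stages `0,…,M-1` (stage `M-1` acts first); fixed amplitude -/
def CX (X P : ℕ → ℝ × ℝ × ℝ → ℝ) : ℕ → ℝ × ℝ × ℝ → ℝ
  | 0 => fun z => z.2.1
  | M + 1 => fun z => CX X P M (z.1, X M z, P M z)

/-- composite momentum map -/
def CP (X P : ℕ → ℝ × ℝ × ℝ → ℝ) : ℕ → ℝ × ℝ × ℝ → ℝ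
  | 0 => fun z => z.2.2
  | M + 1 => fun z => CP X P M (z.1, X M z, P M z)

/-- composite generating function -/
def CF (X P F : ℕ → ℝ × ℝ × ℝ → ℝ) : ℕ → ℝ × ℝ × ℝ → ℝ
  | 0 => fun _ => 0
  | M + 1 => fun z => CF X P F M (z.1, X M z, P M z) + F M z

/-- partial sums -/
def GS (G : ℕ → ℝ × ℝ × ℝ × ℝ → ℝ) (M : ℕ) : ℝ × ℝ × ℝ × ℝ → ℝ :=
  fun z => ∑ m ∈ Finset.range M, G m z

/-- full sum (at each point at most one term is nonzero) -/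
def GT (G : ℕ → ℝ × ℝ × ℝ × ℝ → ℝ) : ℝ × ℝ × ℝ × ℝ → ℝ :=
  fun z => ∑' m, G m z

/-- A compatible sequence of stages. -/
structure SeqS (al : ℝ) (N lam r sg ep : ℕ → ℝ) (gd : ℕ → Set ℤ)
    (G : ℕ → ℝ × ℝ × ℝ × ℝ → ℝ) (X P F : ℕ → ℝ → ℝ × ℝ × ℝ → ℝ) : Prop where
  st : ∀ m, Stage al (N m) (lam m) (r m) (sg m) (ep m) (gd m) (G m) (X m) (P m) (F m)
  N0 : 1 ≤ N 0
  NS : ∀ m, N (m + 1) = 1000 * N m
  lpos : ∀ m, 0 < lam m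
  lS : ∀ m, lam (m + 1) = lam m / 2000
  lr : ∀ m, lam m ≤ r m
  emb : ∀ m, Emb al (N m) (r m)
  gdr : ∀ m, ∀ i ∈ gd m, (N m / 2 ≤ (i : ℝ) ∧ (i : ℝ) + 1 ≤ 2 * N m) ∨
    (-(2 * N m) ≤ (i : ℝ) ∧ (i : ℝ) + 1 ≤ -(N m / 2))
  pause : ∀ m, ∀ i ∈ gd m, ∀ j, j < m → ∀ k' j' : ℤ, |(i : ℝ) - k'| ≤ 2 * N j + 1 →
    r j + r m < |(j' : ℝ) - k' * al|

end H930.FF
end
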