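import Pool.Agent.Helper930.FF.Defs

set_option autoImplicit false
open MeasureTheory Topology

noncomputable section

namespace H930.FF



def inB (N r : ℝ) (y : ℝ × ℝ) : Prop := |y.1| ≤ 2 * N ∧ |y.2| ≤ r

/-- shift by the lattice vector `g` -/
def shf (al : ℝ) (g : ℤ × ℤ) (y : ℝ × ℝ) : ℝ × ℝ := (y.1 - g.1, y.2 - (g.2 - g.1 * al))

open Classical in
/-- the lattice vector bringing `y` into the box (or `0`) -/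
def sel (al N r : ℝ) (y : ℝ × ℝ) : ℤ × ℤ :=
  if h : ∃ g : ℤ × ℤ, inB N r (shf al g y) then h.choose else (0, 0)

def sh3 (al : ℝ) (g : ℤ × ℤ) (z : ℝ × ℝ × ℝ) : ℝ × ℝ × ℝ := (z.1 - g.1, z.2.1 - (g.2 - g.1 * al), z.2.2)
def sh4 (al : ℝ) (g : ℤ × ℤ) (z : ℝ × ℝ × ℝ × ℝ) : ℝ × ℝ × ℝ × ℝ :=
  (z.1 - g.1, z.2.1 - (g.2 - g.1 * al), z.2.2.1, z.2.2.2)

/-- periodised angle map -/
def PX (al N r : ℝ) (X : ℝ × ℝ × ℝ → ℝ) (z : ℝ × ℝ × ℝ) : ℝ :=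
  X (sh3 al (sel al N r (z.1, z.2.1)) z) +
    ((sel al N r (z.1, z.2.1)).2 - (sel al N r (z.1, z.2.1)).1 * al)
/-- periodised scalar function on `(t,θ,c)` -/
def PP (al N r : ℝ) (P : ℝ × ℝ × ℝ → ℝ) (z : ℝ × ℝ × ℝ) : ℝ :=
  P (sh3 al (sel al N r (z.1, z.2.1)) z)
/-- periodised function on `(t,x,p,a)` -/
def PG (al N r : ℝ) (G : ℝ × ℝ × ℝ × ℝ → ℝ) (z : ℝ × ℝ × ℝ × ℝ) : ℝ :=
  G (sh4 al (sel al N r (z.1, z.2.1)) z)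

/-- a local stage for one amplitude, as used by the periodisation -/
structure LTr (N r1 : ℝ) (X P F : ℝ × ℝ × ℝ → ℝ) : Prop where
  box : ∀ z, (X z = z.2.1 ∧ P z = z.2.2 ∧ F z = 0) ∨
    (|z.1| ≤ 2 * N ∧ |z.2.1| ≤ r1 ∧ |X z| ≤ r1)

/-- local perturbation -/
structure LG (N r1 : ℝ) (gd : Set ℤ) (G : ℝ × ℝ × ℝ × ℝ → ℝ) : Prop where
  C2 : ContDiff ℝ 2 G
  gr : ∀ i ∈ gd, -(2 * N) ≤ (i : ℝ) ∧ (i : ℝ) + 1 ≤ 2 * N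
  Gx : ∀ t x p a : ℝ, ((∀ i ∈ gd, ¬ ((i : ℝ) ≤ t ∧ t ≤ i + 1)) ∨ r1 < |x|) → G (t, x, p, a) = 0

end H930.FF
end
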